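import Pool.Agent.Lib.MP_7cf0e7_an.Form

/-!
# The bilinear form
-/

set_option autoImplicit false

namespace Pool.Agent.Lib.MP_7cf0e7_an

open scoped InnerProductSpace

theorem norm_le_of_bp {ι : Type} [DecidableEq ι] {E : Type*} [NormedAddCommGroup E]
    [NormedSpace ℝ E] [CompleteSpace E] (f : L1 ι →L[ℝ] E) (C : ℝ) (hf : ∀ i, ‖f (bp i)‖ ≤ C)
    (x : L1 ι) : ‖f x‖ ≤ C * ‖x‖ := by
  have h : f x = l1ext (fun i => f (bp i)) C hf x := clm_apply_eq (fun i => by rw [l1ext_bp]) x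
  rw [h]
  exact l1ext_norm_le _ _ _ _

variable {Ω : Type} [LinearOrder Ω] [OrderBot Ω] [hΩ : IsOm Ω]

/-- The feature map. -/
noncomputable def Phi : L1 (Gen Ω) →L[ℝ] HH := JJ.comp TT

theorem norm_Phi_le (x : L1 (Gen Ω)) : ‖Phi x‖ ≤ ‖x‖ := by
  unfold Phi
  rw [ContinuousLinearMap.comp_apply]
  have h1 := norm_le_of_bp (JJ (Ω := Ω)) 1 norm_JJ_bp (TT x)
  have h2 : ‖TT x‖ ≤ 1 * ‖x‖ := l1ext_norm_le _ _ _ _
  linarith

theorem norm_Phi_bp_le (k : Gen Ω) : ‖Phi (bp k)‖ ≤ 1 := by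
  have := norm_Phi_le (bp k)
  rwa [norm_bp] at this

theorem Phi_RR {F : Finset Ω} {j : Ω} (hj : j ∈ F) : Phi (RR F j) = 0 := by
  unfold Phi
  rw [ContinuousLinearMap.comp_apply, TT_RR hj, map_zero]

theorem Phi_ne {S : Set (Finset Ω)} {F : Finset Ω} (hF : F ∈ S) {x : L1 (Gen Ω)}
    (hx : TT (blk F x) ≠ 0) : Phi (chi S x) ≠ 0 := by
  intro h
  apply hx
  unfold Phi at h
  rw [ContinuousLinearMap.comp_apply] at h
  have h1 := JJ_inj h
  rw [TT_chi] at h1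
  have h2 : blk F (TT x) = blk F (chi S (TT x)) := by
    have : (blk F) (TT x) = ((blk F).comp (chi S)) (TT x) := by
      apply clm_apply_eq
      intro k
      rw [ContinuousLinearMap.comp_apply, chi_bp]
      unfold blk
      by_cases hk : k.1 ∈ S
      · rw [if_pos hk]
      · rw [if_neg hk, map_zero, chi_bp, if_neg]
        intro h
        rw [Set.mem_singleton_iff] at h
        exact hk (h ▸ hF)
    exact this
  unfold blk at h2 ⊢
  rw [TT_chi, h2, h1, map_zero]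

/-- The kernel. -/
noncomputable def kk (k k' : Gen Ω) : ℝ :=
  ak k.1 k.2.1 k'.1 k'.2.1 k.1.card k'.1.card +
    sg (mx k.1) (mx k'.1) * ⟪Phi (bp k), Phi (bp k')⟫_ℝ

theorem abs_kk_le (k k' : Gen Ω) : |kk k k'| ≤ 3 := by
  unfold kk
  have h1 := ak_bound k.1 k.2.1 k'.1 k'.2.1
  have h2 : |⟪Phi (bp k), Phi (bp k')⟫_ℝ| ≤ 1 := by
    refine (abs_real_inner_le_norm _ _).trans ?_
    exact mul_le_one₀ (norm_Phi_bp_le k) (norm_nonneg _) (norm_Phi_bp_le k')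
  have h3 := abs_sg_le (mx k.1) (mx k'.1)
  have h4 : |sg (mx k.1) (mx k'.1) * ⟪Phi (bp k), Phi (bp k')⟫_ℝ| ≤ 1 := by
    rw [abs_mul]
    exact mul_le_one₀ h3 (abs_nonneg _) h2
  calc _ ≤ |ak k.1 k.2.1 k'.1 k'.2.1 k.1.card k'.1.card| +
        |sg (mx k.1) (mx k'.1) * ⟪Phi (bp k), Phi (bp k')⟫_ℝ| := abs_add_le _ _
    _ ≤ 2 + 1 := add_le_add h1 h4
    _ = 3 := by norm_num

theorem kk_symm (k k' : Gen Ω) : kk k k' = kk k' k := by
  unfold kk
  rw [ak_symm, sg_symm, real_inner_comm]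

/-- The bilinear form on `ℓ¹`. -/
noncomputable def AA : L1 (Gen Ω) →L[ℝ] L1 (Gen Ω) →L[ℝ] ℝ := l1form kk 3 abs_kk_le

theorem AA_bp (k k' : Gen Ω) : AA (bp k) (bp k') = kk k k' := l1form_bp _ _ _ _ _

theorem AA_symm (x y : L1 (Gen Ω)) : AA x y = AA y x :=
  form_symm (fun i j => by rw [AA_bp, AA_bp, kk_symm]) x y

theorem abs_AA_le (x y : L1 (Gen Ω)) : |AA x y| ≤ 3 * ‖x‖ * ‖y‖ :=
  l1form_norm_le _ _ (by norm_num) _ _ _

theorem AA_RR_bp {F : Finset Ω} {j : Ω} (hj : j ∈ F) (k : Gen Ω) :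
    AA (RR F j) (bp k) =
      if j ∈ k.1 then (2 : ℝ) ^ F.card * (lam F.card * lam k.1.card * sgn k.2.1 j) else 0 := by
  unfold RR
  rw [map_sum, sum_apply]
  have h1 : ∀ P ∈ (Finset.univ : Finset {P : Finset Ω // P ∈ F.powerset}),
      AA (sgn P.1 j • bp (⟨F, P⟩ : Gen Ω)) (bp k) =
        sgn P.1 j * ak F P.1 k.1 k.2.1 F.card k.1.card +
          sg (mx F) (mx k.1) * ⟪Phi (sgn P.1 j • bp (⟨F, P⟩ : Gen Ω)), Phi (bp k)⟫_ℝ := by
    intro P _
    rw [map_smul, smul_apply, AA_bp]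
    unfold kk
    rw [map_smul, real_inner_smul_left, smul_eq_mul]
    ring
  rw [Finset.sum_congr rfl h1, Finset.sum_add_distrib, ← Finset.mul_sum, ← sum_inner,
    ← map_sum]
  have h2 : ∑ P : {P : Finset Ω // P ∈ F.powerset}, sgn P.1 j • bp (⟨F, P⟩ : Gen Ω) = RR F j := rfl
  rw [h2, Phi_RR hj, inner_zero_left, mul_zero, add_zero,
    sum_gen (fun P => sgn P j * ak F P k.1 k.2.1 F.card k.1.card), sum_ak hj]

/-- The vectors `e_j` (in `ℓ¹`). -/
noncomputable def eV (j : Ω) : L1 (Gen Ω) := (1 / 2 : ℝ) • RR {j} j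

theorem AA_eV_bp (j : Ω) (k : Gen Ω) :
    AA (eV j) (bp k) = if j ∈ k.1 then lam k.1.card * sgn k.2.1 j else 0 := by
  unfold eV
  rw [map_smul, smul_apply, AA_RR_bp (Finset.mem_singleton_self j)]
  rw [Finset.card_singleton, lam_one]
  split_ifs
  · rw [smul_eq_mul]; ring
  · simp

theorem AA_RR {F : Finset Ω} {j : Ω} (hj : j ∈ F) (y : L1 (Gen Ω)) :
    AA (RR F j) y = 2 ^ F.card * lam F.card * AA (eV j) y := by
  have : AA (RR F j) y = ((2 ^ F.card * lam F.card) • AA (eV j)) y := by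
    apply clm_apply_eq
    intro k
    rw [AA_RR_bp hj, smul_apply, AA_eV_bp]
    split_ifs
    · rw [smul_eq_mul]; ring
    · simp
  rw [this, smul_apply, smul_eq_mul]

theorem AA_eV_RR {F : Finset Ω} {i j : Ω} (hj : j ∈ F) :
    AA (eV i) (RR F j) = if i = j then 2 ^ F.card * lam F.card else 0 := by
  unfold RR
  rw [map_sum]
  have h1 : ∀ P ∈ (Finset.univ : Finset {P : Finset Ω // P ∈ F.powerset}),
      AA (eV i) (sgn P.1 j • bp (⟨F, P⟩ : Gen Ω)) =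
        if i ∈ F then lam F.card * (sgn P.1 i * sgn P.1 j) else 0 := by
    intro P _
    rw [map_smul, AA_eV_bp, smul_eq_mul]
    split_ifs
    · ring
    · simp
  rw [Finset.sum_congr rfl h1]
  by_cases hi : i ∈ F
  · simp only [hi, if_true]
    rw [← Finset.mul_sum, sum_gen (fun P => sgn P i * sgn P j), sum_sgn_mul hi hj]
    split_ifs
    · ring
    · simp
  · simp only [hi, if_false]
    rw [if_neg]
    · simp
    · rintro rfl; exact hi hj

theorem AA_eV_eV (i j : Ω) : AA (eV i) (eV j) = if i = j then 1 else 0 := by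
  conv_lhs => rw [eV, eV]
  rw [← eV, map_smul, AA_eV_RR (Finset.mem_singleton_self j), Finset.card_singleton, lam_one]
  split_ifs
  · simp
  · simp

end Pool.Agent.Lib.MP_7cf0e7_an
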