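import Pool.Agent.Lib.MP_7cf0e7_an.Thin

/-!
# Isotropic subspaces have trivial tails
-/

set_option autoImplicit false

namespace Pool.Agent.Lib.MP_7cf0e7_an

open scoped InnerProductSpace

variable {Ω : Type} [LinearOrder Ω] [OrderBot Ω] [hΩ : IsOm Ω]

omit [OrderBot Ω] hΩ in
theorem ak_filter {F P G Q : Finset Ω} {ξ : Ω} (h : ∀ j ∈ F ∩ G, j ≤ ξ) (a b : ℕ) :
    ak F P G Q a b =
      ak (F.filter (· ≤ ξ)) (P.filter (· ≤ ξ)) (G.filter (· ≤ ξ)) (Q.filter (· ≤ ξ)) a b := by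
  unfold ak
  have h1 : F.filter (· ≤ ξ) ∩ G.filter (· ≤ ξ) = F ∩ G := by
    ext j
    simp only [Finset.mem_inter, Finset.mem_filter]
    constructor
    · rintro ⟨⟨h1, _⟩, h2, _⟩
      exact ⟨h1, h2⟩
    · rintro ⟨h1, h2⟩
      have := h j (Finset.mem_inter.2 ⟨h1, h2⟩)
      exact ⟨⟨h1, this⟩, h2, this⟩
  rw [h1]
  congr 1
  apply Finset.prod_congr rfl
  intro j hj
  have hjξ := h j hj
  have h2 : sgn (P.filter (· ≤ ξ)) j = sgn P j := by simp [sgn, hjξ]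
  have h3 : sgn (Q.filter (· ≤ ξ)) j = sgn Q j := by simp [sgn, hjξ]
  rw [h2, h3]

theorem AA_sum_sum (n : ℕ) (c : ℕ → ℝ) (a b : ℕ → Gen Ω) :
    AA (∑ s ∈ Finset.range n, c s • bp (a s)) (∑ s ∈ Finset.range n, c s • bp (b s)) =
      ∑ s ∈ Finset.range n, ∑ t ∈ Finset.range n, c s * c t * kk (a s) (b t) := by
  rw [map_sum AA, sum_apply]
  apply Finset.sum_congr rfl
  intro s _
  rw [map_sum]
  apply Finset.sum_congr rfl
  intro t _
  rw [map_smul, map_smul, smul_apply, AA_bp, smul_eq_mul, smul_eq_mul]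
  ring

theorem inner_close {E : Type*} [NormedAddCommGroup E] [InnerProductSpace ℝ E] {a b a' b' : E}
    {η : ℝ} (ha' : ‖a'‖ ≤ 1) (hb : ‖b‖ ≤ 1) (h1 : ‖a - a'‖ ≤ 2 * η)
    (h2 : ‖b - b'‖ ≤ 2 * η) : |⟪a, b⟫_ℝ - ⟪a', b'⟫_ℝ| ≤ 4 * η := by
  have h3 : ⟪a, b⟫_ℝ - ⟪a', b'⟫_ℝ = ⟪a - a', b⟫_ℝ + ⟪a', b - b'⟫_ℝ := by
    rw [inner_sub_left, inner_sub_right]; ring
  have hη : 0 ≤ 2 * η := (norm_nonneg _).trans h1
  rw [h3]
  have h4 : |⟪a - a', b⟫_ℝ| ≤ 2 * η := by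
    refine (abs_real_inner_le_norm _ _).trans ?_
    calc ‖a - a'‖ * ‖b‖ ≤ 2 * η * 1 := mul_le_mul h1 hb (norm_nonneg _) hη
      _ = 2 * η := mul_one _
  have h5 : |⟪a', b - b'⟫_ℝ| ≤ 2 * η := by
    refine (abs_real_inner_le_norm _ _).trans ?_
    calc ‖a'‖ * ‖b - b'‖ ≤ 1 * (2 * η) := mul_le_mul ha' h2 (norm_nonneg _) zero_le_one
      _ = 2 * η := one_mul _
  calc _ ≤ |⟪a - a', b⟫_ℝ| + |⟪a', b - b'⟫_ℝ| := abs_add_le _ _
    _ ≤ 2 * η + 2 * η := add_le_add h4 h5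
    _ = 4 * η := by ring

open Classical in
theorem caseA (U : Submodule ℝ (L1 (Gen Ω))) (hU : ∀ x ∈ U, ∀ y ∈ U, AA x y = 0)
    (hA : ∀ d0 : Ω, ∃ x ∈ U, ∃ F : Finset Ω, d0 ≤ mx F ∧ TT (blk F x) ≠ 0) : False := by
  obtain ⟨x, κ, c, n, N, σ, ξ, S, η, hS, hN, hη, hηC, hσ, hd, hp⟩ := exists_thin U hA
  set M : Ω → ℕ → Ω := fun d s => mx (κ d s).1 with hM
  set g : Ω → Ω := fun d => (Finset.range n).sup (M d) with hg
  have hMg : ∀ d s, s < n → M d s ≤ g d := fun d s hs =>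
    Finset.le_sup (f := M d) (Finset.mem_range.2 hs)
  obtain ⟨⟨d1, hd1, d2, hd2, h12, z, hz1, hz2, hzeq, hzlt⟩,
    ⟨d3, hd3, d4, hd4, h34, w, hw1, hw2, hweq, hwlt⟩⟩ :=
    two_sign hS (fun d => M d σ) g (fun d h => (hd d h).2.2.2.2.1)
  -- basic facts
  have hξ : ∀ d ∈ S, ξ < d := fun d h => (hd d h).1
  have hbot : ∀ d ∈ S, ⊥ < d := fun d h => lt_of_le_of_lt bot_le (hξ d h)
  have hsmall : ∀ d ∈ S, ∀ s < n, M d s < d → M d s ≤ ξ := by
    intro d h s hs hlt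
    apply Finset.sup_le
    intro j hj
    exact (hd d h).2.2.2.2.2.2.1 s hs j hj ((mx_lt (hbot d h)).1 hlt j hj)
  have hsmall_eq : ∀ d ∈ S, ∀ e ∈ S, ∀ s < n, M d s < d → M d s = M e s := by
    intro d h e he s hs hlt
    have hlt' : M e s < e := by
      by_contra hcon
      exact absurd (((hp s hs d h e he).2.2.2.1).2 (not_lt.1 hcon)) (not_le.2 hlt)
    have h1 : (κ d s).1.filter (· ≤ ξ) = (κ d s).1 := by
      rw [Finset.filter_eq_self]
      intro j hj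
      exact (le_mx hj).trans (hsmall d h s hs hlt)
    have h2 : (κ e s).1.filter (· ≤ ξ) = (κ e s).1 := by
      rw [Finset.filter_eq_self]
      intro j hj
      exact (le_mx hj).trans (hsmall e he s hs hlt')
    have h3 := (hp s hs d h e he).1
    rw [h1, h2] at h3
    simp only [hM]
    rw [h3]
  have htail : ∀ d ∈ S, ∀ s < n, (d ≤ M d s ↔ d1 ≤ M d1 s) := fun d h s hs =>
    (hp s hs d h d1 hd1).2.2.2.1
  have hrst : ∀ d ∈ S, ∀ s < n, rst ξ (M d s) = rst ξ (M d1 s) := fun d h s hs =>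
    (hp s hs d h d1 hd1).2.2.2.2.1
  have hagree : ∀ d ∈ S, ∀ s < n, ∀ t < n, d ≤ M d s → d ≤ M d t → ∀ y < d, ξ < y →
      ee (M d s) y = ee (M d t) y := by
    intro d h s hs t ht h1 h2 y hy hξy
    by_contra hne
    exact absurd ((hd d h).2.2.2.2.2.2.2 s hs t ht h1 h2 y hy hne) (not_le.2 hξy)
  have hMlt : ∀ d d', g d < d' → ∀ s < n, M d s < d' := fun d d' h s hs =>
    lt_of_le_of_lt (hMg d s hs) h
  -- the combinatorial condition
  let E : ℕ → ℕ → Prop := fun s t => d1 ≤ M d1 s ∧ d1 ≤ M d1 t ∧ rst ξ (M d1 s) = rst ξ (M d1 t)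
  -- signs of equivalent tails
  have hsgE : ∀ d ∈ S, ∀ d' ∈ S, g d < d' → ∀ z < d, z < d' →
      (∀ y < z, ee (M d σ) y = ee (M d' σ) y) → ee (M d σ) z ≠ ee (M d' σ) z →
      ∀ s < n, ∀ t < n, E s t →
      sg (M d s) (M d' t) = if ee (M d σ) z < ee (M d' σ) z then 1 else -1 := by
    intro d h d' h' hgd z hzd hzd' heq hne s hs t ht hE
    have hts : d ≤ M d s := (htail d h s hs).2 hE.1
    have htt : d' ≤ M d' t := (htail d' h' t ht).2 hE.2.1
    have htσ : d ≤ M d σ := (hd d h).2.2.2.2.1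
    have htσ' : d' ≤ M d' σ := (hd d' h').2.2.2.2.1
    have hrr : rst ξ (M d s) = rst ξ (M d' t) := by
      rw [hrst d h s hs, hrst d' h' t ht]; exact hE.2.2
    have hrσ : rst ξ (M d σ) = rst ξ (M d' σ) := by
      rw [hrst d h σ hσ, hrst d' h' σ hσ]
    have hξz : ξ < z := by
      by_contra hcon
      exact hne (rst_eq_iff.1 hrσ z (not_lt.1 hcon))
    have e1 : ∀ y, y ≤ z → ξ < y → ee (M d s) y = ee (M d σ) y := fun y hy hξy =>
      hagree d h s hs σ hσ hts htσ y (lt_of_le_of_lt hy hzd) hξy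
    have e2 : ∀ y, y ≤ z → ξ < y → ee (M d' t) y = ee (M d' σ) y := fun y hy hξy =>
      hagree d' h' t ht σ hσ htt htσ' y (lt_of_le_of_lt hy hzd') hξy
    have hlt : M d s < M d' t := lt_of_lt_of_le (hMlt d d' hgd s hs) htt
    rw [sg_of_diff (lt_of_lt_of_le hzd hts) (lt_of_lt_of_le hzd' htt) ?_ ?_]
    · rw [e1 z le_rfl hξz, e2 z le_rfl hξz]
      simp [hlt]
    · intro y hy
      by_cases hyξ : y ≤ ξ
      · exact rst_eq_iff.1 hrr y hyξ
      · rw [e1 y hy.le (not_le.1 hyξ), e2 y hy.le (not_le.1 hyξ)]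
        exact heq y hy
    · rw [e1 z le_rfl hξz, e2 z le_rfl hξz]
      exact hne
  -- signs of the other pairs
  have hsgN : ∀ s < n, ∀ t < n, ¬ E s t → sg (M d1 s) (M d2 t) = sg (M d3 s) (M d4 t) := by
    intro s hs t ht hE
    have gen : ∀ d ∈ S, ∀ d' ∈ S, g d < d' → (M d s < M d' t ↔ (d1 ≤ M d1 t) ∨
        (¬ (d1 ≤ M d1 t) ∧ ¬ (d1 ≤ M d1 s) ∧ M d1 s < M d1 t)) := by
      intro d h d' h' hgd
      by_cases htt : d' ≤ M d' t
      · have h1 := (htail d' h' t ht).1 htt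
        simp only [h1, not_true_eq_false, false_and, or_false, iff_true]
        exact lt_of_lt_of_le (hMlt d d' hgd s hs) htt
      · have h1 : ¬ (d1 ≤ M d1 t) := fun hh => htt ((htail d' h' t ht).2 hh)
        have h2 : M d' t = M d1 t := hsmall_eq d' h' d1 hd1 t ht (not_le.1 htt)
        by_cases hts : d ≤ M d s
        · have h3 := (htail d h s hs).1 hts
          simp only [h1, h3, not_true_eq_false, false_and, and_false, or_false, iff_false, not_lt]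
          have h4 : M d' t ≤ ξ := hsmall d' h' t ht (not_le.1 htt)
          exact h4.trans ((hξ d h).le.trans hts)
        · have h3 : ¬ (d1 ≤ M d1 s) := fun hh => hts ((htail d h s hs).2 hh)
          have h4 : M d s = M d1 s := hsmall_eq d h d1 hd1 s hs (not_le.1 hts)
          rw [h2, h4]
          simp [h1, h3]
    have zlt : ∀ d ∈ S, ∀ e ∈ S, ∀ u < n, ∀ y ≤ ξ, (y < M d u ↔ y < M e u) := by
      intro d h e he u hu y hy
      by_cases hu' : d ≤ M d u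
      · have h1 : e ≤ M e u := (htail e he u hu).2 ((htail d h u hu).1 hu')
        have h2 : y < M d u := lt_of_le_of_lt hy (lt_of_lt_of_le (hξ d h) hu')
        have h3 : y < M e u := lt_of_le_of_lt hy (lt_of_lt_of_le (hξ e he) h1)
        simp [h2, h3]
      · rw [hsmall_eq d h e he u hu (not_le.1 hu')]
    have evl : ∀ d ∈ S, ∀ e ∈ S, ∀ u < n, ∀ y ≤ ξ, ee (M d u) y = ee (M e u) y := by
      intro d h e he u hu y hy
      exact rst_eq_iff.1 ((hrst d h u hu).trans (hrst e he u hu).symm) y hy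
    apply sg_congr (x := ξ)
    · intro y hy
      rw [zlt d1 hd1 d3 hd3 s hs y hy, zlt d2 hd2 d4 hd4 t ht y hy]
    · intro y hy _ _
      exact ⟨evl d1 hd1 d3 hd3 s hs y hy, evl d2 hd2 d4 hd4 t ht y hy⟩
    · rw [gen d1 hd1 d2 hd2 h12, gen d3 hd3 d4 hd4 h34]
    · by_cases h1 : d1 ≤ M d1 s
      · by_cases h2 : d1 ≤ M d1 t
        · left
          have h3 : rst ξ (M d1 s) ≠ rst ξ (M d1 t) := fun hh => hE ⟨h1, h2, hh⟩
          have h4 : ∃ y ≤ ξ, ee (M d1 s) y ≠ ee (M d1 t) y := by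
            by_contra hcon
            push Not at hcon
            exact h3 (rst_eq_iff.2 hcon)
          obtain ⟨y, hy, hne⟩ := h4
          have h5 : d2 ≤ M d2 t := (htail d2 hd2 t ht).2 h2
          refine ⟨y, hy, lt_of_le_of_lt hy (lt_of_lt_of_le (hξ d1 hd1) h1),
            lt_of_le_of_lt hy (lt_of_lt_of_le (hξ d2 hd2) h5), ?_⟩
          rw [evl d2 hd2 d1 hd1 t ht y hy]
          exact hne
        · right
          have h5 : ∀ e ∈ S, M e t ≤ ξ := by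
            intro e he
            apply hsmall e he t ht
            rw [← not_le]
            intro hh
            exact h2 ((htail e he t ht).1 hh)
          exact ⟨fun y _ hy => hy.le.trans (h5 d2 hd2), fun y _ hy => hy.le.trans (h5 d4 hd4)⟩
      · right
        have h5 : ∀ e ∈ S, M e s ≤ ξ := by
          intro e he
          apply hsmall e he s hs
          rw [← not_le]
          intro hh
          exact h1 ((htail e he s hs).1 hh)
        exact ⟨fun y hy _ => hy.le.trans (h5 d1 hd1), fun y hy _ => hy.le.trans (h5 d3 hd3)⟩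
  -- the first kernel
  have hak : ∀ s < n, ∀ t < n,
      ak (κ d1 s).1 (κ d1 s).2.1 (κ d2 t).1 (κ d2 t).2.1 (κ d1 s).1.card (κ d2 t).1.card =
      ak (κ d3 s).1 (κ d3 s).2.1 (κ d4 t).1 (κ d4 t).2.1 (κ d3 s).1.card (κ d4 t).1.card := by
    intro s hs t ht
    have hle : ∀ d ∈ S, ∀ d' ∈ S, g d < d' → ∀ j ∈ (κ d s).1 ∩ (κ d' t).1, j ≤ ξ := by
      intro d h d' h' hgd j hj
      rw [Finset.mem_inter] at hj
      have h1 : j < d' := lt_of_le_of_lt (le_mx hj.1) (hMlt d d' hgd s hs)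
      exact (hd d' h').2.2.2.2.2.2.1 t ht j hj.2 h1
    rw [ak_filter (hle d1 hd1 d2 hd2 h12), ak_filter (hle d3 hd3 d4 hd4 h34)]
    obtain ⟨a1, a2, a3, -, -, -⟩ := hp s hs d1 hd1 d3 hd3
    obtain ⟨b1, b2, b3, -, -, -⟩ := hp t ht d2 hd2 d4 hd4
    rw [a1, a2, a3, b1, b2, b3]
  -- estimates for each pair
  set X : Ω → ℕ → HH := fun d s => Phi (bp (κ d s)) with hX
  have hXn : ∀ d s, ‖X d s‖ ≤ 1 := fun d s => norm_Phi_bp_le _
  have hXc : ∀ d ∈ S, ∀ e ∈ S, ∀ s < n, ‖X d s - X e s‖ ≤ 2 * η := fun d h e he s hs =>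
    (hp s hs d h e he).2.2.2.2.2
  have hpair : ∀ s ∈ Finset.range n, ∀ t ∈ Finset.range n,
      (if E s t then 2 * (c s * c t * ⟪X d1 s, X d1 t⟫_ℝ) else 0) - 8 * η * (|c s| * |c t|) ≤
      c s * c t * kk (κ d1 s) (κ d2 t) - c s * c t * kk (κ d3 s) (κ d4 t) := by
    intro s hs t ht
    rw [Finset.mem_range] at hs ht
    have h1 : c s * c t * kk (κ d1 s) (κ d2 t) - c s * c t * kk (κ d3 s) (κ d4 t) =
        c s * c t * (sg (M d1 s) (M d2 t) * ⟪X d1 s, X d2 t⟫_ℝ -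
          sg (M d3 s) (M d4 t) * ⟪X d3 s, X d4 t⟫_ℝ) := by
      unfold kk
      rw [hak s hs t ht]
      ring
    rw [h1]
    have hcc : 0 ≤ |c s| * |c t| := by positivity
    by_cases hE : E s t
    · rw [if_pos hE]
      have h2 := hsgE d1 hd1 d2 hd2 h12 z hz1 hz2 hzeq hzlt.ne s hs t ht hE
      rw [if_pos hzlt] at h2
      have h3 := hsgE d3 hd3 d4 hd4 h34 w hw1 hw2 hweq hwlt.ne' s hs t ht hE
      rw [if_neg (not_lt.2 hwlt.le)] at h3
      rw [h2, h3]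
      have h4 := inner_close (hXn d1 s) (hXn d2 t) (hXc d1 hd1 d1 hd1 s hs)
        (hXc d2 hd2 d1 hd1 t ht)
      have h5 := inner_close (hXn d1 s) (hXn d4 t) (hXc d3 hd3 d1 hd1 s hs)
        (hXc d4 hd4 d1 hd1 t ht)
      have h6 : c s * c t * (1 * ⟪X d1 s, X d2 t⟫_ℝ - -1 * ⟪X d3 s, X d4 t⟫_ℝ) -
          2 * (c s * c t * ⟪X d1 s, X d1 t⟫_ℝ) =
          c s * c t * ((⟪X d1 s, X d2 t⟫_ℝ - ⟪X d1 s, X d1 t⟫_ℝ) +
            (⟪X d3 s, X d4 t⟫_ℝ - ⟪X d1 s, X d1 t⟫_ℝ)) := by ring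
      have h7 : |c s * c t * ((⟪X d1 s, X d2 t⟫_ℝ - ⟪X d1 s, X d1 t⟫_ℝ) +
            (⟪X d3 s, X d4 t⟫_ℝ - ⟪X d1 s, X d1 t⟫_ℝ))| ≤ (|c s| * |c t|) * (8 * η) := by
        rw [abs_mul, abs_mul]
        apply mul_le_mul_of_nonneg_left _ hcc
        calc _ ≤ |⟪X d1 s, X d2 t⟫_ℝ - ⟪X d1 s, X d1 t⟫_ℝ| +
              |⟪X d3 s, X d4 t⟫_ℝ - ⟪X d1 s, X d1 t⟫_ℝ| := abs_add_le _ _
          _ ≤ 4 * η + 4 * η := add_le_add h4 h5
          _ = 8 * η := by ring
      rw [← h6] at h7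
      have h8 := neg_abs_le (c s * c t * (1 * ⟪X d1 s, X d2 t⟫_ℝ - -1 * ⟪X d3 s, X d4 t⟫_ℝ) -
          2 * (c s * c t * ⟪X d1 s, X d1 t⟫_ℝ))
      linarith
    · rw [if_neg hE, hsgN s hs t ht hE]
      have h4 := inner_close (hXn d3 s) (hXn d2 t) (hXc d1 hd1 d3 hd3 s hs)
        (hXc d2 hd2 d4 hd4 t ht)
      have h6 : c s * c t * (sg (M d3 s) (M d4 t) * ⟪X d1 s, X d2 t⟫_ℝ -
          sg (M d3 s) (M d4 t) * ⟪X d3 s, X d4 t⟫_ℝ) =
          c s * c t * (sg (M d3 s) (M d4 t) * (⟪X d1 s, X d2 t⟫_ℝ - ⟪X d3 s, X d4 t⟫_ℝ)) := by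
        ring
      rw [h6]
      have h7 : |c s * c t * (sg (M d3 s) (M d4 t) * (⟪X d1 s, X d2 t⟫_ℝ -
          ⟪X d3 s, X d4 t⟫_ℝ))| ≤ (|c s| * |c t|) * (8 * η) := by
        rw [abs_mul, abs_mul]
        apply mul_le_mul_of_nonneg_left _ hcc
        rw [abs_mul]
        calc |sg (M d3 s) (M d4 t)| * |⟪X d1 s, X d2 t⟫_ℝ - ⟪X d3 s, X d4 t⟫_ℝ|
            ≤ 1 * (4 * η) := mul_le_mul (abs_sg_le _ _) h4 (abs_nonneg _) zero_le_one
          _ ≤ 8 * η := by linarith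
      have h8 := neg_abs_le (c s * c t * (sg (M d3 s) (M d4 t) * (⟪X d1 s, X d2 t⟫_ℝ -
          ⟪X d3 s, X d4 t⟫_ℝ)))
      linarith
  -- sum up
  set q : Ω → L1 (Gen Ω) := fun d => ∑ s ∈ Finset.range n, c s • bp (κ d s) with hq
  have hlow : 2 * (1 / (N : ℝ) ^ 2) - 1 / (N : ℝ) ^ 2 ≤ AA (q d1) (q d2) - AA (q d3) (q d4) := by
    have h1 : AA (q d1) (q d2) - AA (q d3) (q d4) =
        ∑ s ∈ Finset.range n, ∑ t ∈ Finset.range n,
          (c s * c t * kk (κ d1 s) (κ d2 t) - c s * c t * kk (κ d3 s) (κ d4 t)) := by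
      simp only [hq]
      rw [AA_sum_sum, AA_sum_sum, ← Finset.sum_sub_distrib]
      apply Finset.sum_congr rfl
      intro s _
      rw [← Finset.sum_sub_distrib]
    have h2 := Finset.sum_le_sum fun s hs => Finset.sum_le_sum fun t ht => hpair s hs t ht
    rw [← h1] at h2
    refine le_trans ?_ h2
    simp_rw [Finset.sum_sub_distrib]
    have h3 : ∑ s ∈ Finset.range n, ∑ t ∈ Finset.range n, 8 * η * (|c s| * |c t|) =
        8 * η * (∑ s ∈ Finset.range n, |c s|) ^ 2 := by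
      rw [sq, Finset.sum_mul_sum, Finset.mul_sum]
      apply Finset.sum_congr rfl
      intro s _
      rw [Finset.mul_sum]
    rw [h3]
    have h4 : ∑ s ∈ Finset.range n, ∑ t ∈ Finset.range n,
        (if E s t then 2 * (c s * c t * ⟪X d1 s, X d1 t⟫_ℝ) else 0) =
        2 * ∑ s ∈ (Finset.range n).filter (fun s => d1 ≤ M d1 s),
          ∑ t ∈ (Finset.range n).filter (fun s => d1 ≤ M d1 s),
          if rst ξ (M d1 s) = rst ξ (M d1 t) then ⟪c s • X d1 s, c t • X d1 t⟫_ℝ else 0 := by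
      rw [Finset.mul_sum, Finset.sum_filter]
      apply Finset.sum_congr rfl
      intro s _
      by_cases hs : d1 ≤ M d1 s
      · rw [if_pos hs, Finset.mul_sum, Finset.sum_filter]
        apply Finset.sum_congr rfl
        intro t _
        by_cases ht : d1 ≤ M d1 t
        · rw [if_pos ht]
          by_cases hr : rst ξ (M d1 s) = rst ξ (M d1 t)
          · rw [if_pos (show E s t from ⟨hs, ht, hr⟩), if_pos hr, real_inner_smul_left,
              real_inner_smul_right]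
            ring
          · rw [if_neg (fun h : E s t => hr h.2.2), if_neg hr, mul_zero]
        · rw [if_neg ht, if_neg (fun h : E s t => ht h.2.1)]
      · rw [if_neg hs]
        apply Finset.sum_eq_zero
        intro t _
        rw [if_neg (fun h : E s t => hs h.1)]
    rw [h4]
    have h5 := pos_classes ((Finset.range n).filter (fun s => d1 ≤ M d1 s))
      (fun s => rst ξ (M d1 s)) (fun s => c s • X d1 s) (rst ξ (M d1 σ))
    have h6 : ((Finset.range n).filter (fun s => d1 ≤ M d1 s)).filter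
        (fun s => rst ξ (M d1 s) = rst ξ (M d1 σ)) =
        (Finset.range n).filter (fun s => d1 ≤ mx (κ d1 s).1 ∧
          ∀ z < d1, ee (mx (κ d1 s).1) z = ee (mx (κ d1 σ).1) z) := by
      rw [Finset.filter_filter]
      apply Finset.filter_congr
      intro s hs
      rw [Finset.mem_range] at hs
      constructor
      · rintro ⟨h7, h8⟩
        refine ⟨h7, fun y hy => ?_⟩
        by_cases hyξ : y ≤ ξ
        · exact rst_eq_iff.1 h8 y hyξ
        · exact hagree d1 hd1 s hs σ hσ h7 (hd d1 hd1).2.2.2.2.1 y hy (not_le.1 hyξ)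
      · rintro ⟨h7, h8⟩
        refine ⟨h7, rst_eq_iff.2 fun y hy => h8 y (lt_of_le_of_lt hy (hξ d1 hd1))⟩
    rw [h6] at h5
    have h7 := (hd d1 hd1).2.2.2.2.2.1
    have h8 : 1 / (N : ℝ) ^ 2 ≤ ‖∑ s ∈ (Finset.range n).filter (fun s => d1 ≤ mx (κ d1 s).1 ∧
          ∀ z < d1, ee (mx (κ d1 s).1) z = ee (mx (κ d1 σ).1) z), c s • X d1 s‖ ^ 2 := by
      have h9 : 1 / (N : ℝ) ^ 2 = (1 / (N : ℝ)) ^ 2 := by rw [div_pow, one_pow]
      rw [h9]
      exact pow_le_pow_left₀ (by positivity) h7 2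
    linarith
  -- but the values are small
  have hNpos : (0 : ℝ) < N := by exact_mod_cast hN
  have hN1 : (1 : ℝ) ≤ N := by exact_mod_cast hN
  have hsmallA : ∀ d ∈ S, ∀ d' ∈ S, |AA (q d) (q d')| ≤ 9 * (1 / (100 * (N : ℝ) ^ 2)) := by
    intro d h d' h'
    set ρ : ℝ := 1 / (100 * (N : ℝ) ^ 2) with hρ
    have hρ0 : 0 ≤ ρ := by positivity
    have hρ1 : ρ ≤ 1 := by
      rw [hρ, div_le_one (by positivity)]
      nlinarith
    have e1 : ‖q d - x d‖ ≤ ρ := by rw [norm_sub_rev]; exact (hd d h).2.2.2.1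
    have e2 : ‖q d' - x d'‖ ≤ ρ := by rw [norm_sub_rev]; exact (hd d' h').2.2.2.1
    have e3 : ‖x d‖ ≤ 1 := (hd d h).2.2.1
    have e4 : ‖q d'‖ ≤ 2 := by
      have := norm_le_norm_add_norm_sub' (q d') (x d')
      have e5 : ‖x d'‖ ≤ 1 := (hd d' h').2.2.1
      linarith
    have e5 : AA (x d) (x d') = 0 := hU _ (hd d h).2.1 _ (hd d' h').2.1
    have e6 : AA (q d) (q d') = AA (q d - x d) (q d') + AA (x d) (q d' - x d') := by
      rw [map_sub AA, sub_apply, map_sub, e5]; ring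
    rw [e6]
    have e7 := abs_AA_le (q d - x d) (q d')
    have e8 := abs_AA_le (x d) (q d' - x d')
    have e9 : 3 * ‖q d - x d‖ * ‖q d'‖ ≤ 3 * ρ * 2 := by gcongr
    have e10 : 3 * ‖x d‖ * ‖q d' - x d'‖ ≤ 3 * 1 * ρ := by gcongr
    calc _ ≤ |AA (q d - x d) (q d')| + |AA (x d) (q d' - x d')| := abs_add_le _ _
      _ ≤ 3 * ρ * 2 + 3 * 1 * ρ := add_le_add (e7.trans e9) (e8.trans e10)
      _ = 9 * ρ := by ring
  have f1 := hsmallA d1 hd1 d2 hd2
  have f2 := hsmallA d3 hd3 d4 hd4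
  have f3 := le_abs_self (AA (q d1) (q d2))
  have f4 := neg_abs_le (AA (q d3) (q d4))
  have f5 : 1 / (100 * (N : ℝ) ^ 2) = (1 / (N : ℝ) ^ 2) / 100 := by
    field_simp
  have f6 : 0 < 1 / (N : ℝ) ^ 2 := by positivity
  rw [f5] at f1 f2
  linarith

end Pool.Agent.Lib.MP_7cf0e7_an
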