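import Pool.Agent.Lib.MP_7cf0e7_an.Bilin

/-!
# Isotropic subspaces with trivial tails are separable
-/

set_option autoImplicit false

namespace Pool.Agent.Lib.MP_7cf0e7_an

variable {Ω : Type} [LinearOrder Ω] [OrderBot Ω] [hΩ : IsOm Ω]

/-- Flip the signs of the coordinates `≥ d`. -/
def flp (d : Ω) (F : Finset Ω) (P : {P : Finset Ω // P ∈ F.powerset}) :
    {P : Finset Ω // P ∈ F.powerset} :=
  ⟨symmDiff P.1 (F.filter (fun j => d ≤ j)), by
    rw [Finset.mem_powerset]
    intro j hj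
    rw [Finset.mem_symmDiff] at hj
    rcases hj with ⟨h, _⟩ | ⟨h, _⟩
    · exact (Finset.mem_powerset.1 P.2) h
    · exact (Finset.mem_filter.1 h).1⟩

omit [OrderBot Ω] hΩ in
theorem flp_flp (d : Ω) (F : Finset Ω) (P : {P : Finset Ω // P ∈ F.powerset}) :
    flp d F (flp d F P) = P := by
  apply Subtype.ext
  simp only [flp]
  rw [symmDiff_symmDiff_cancel_right]

omit [OrderBot Ω] hΩ in
theorem sgn_flp {d : Ω} {F : Finset Ω} {j : Ω} (hj : j ∈ F)
    (P : {P : Finset Ω // P ∈ F.powerset}) :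
    sgn (flp d F P).1 j = if d ≤ j then - sgn P.1 j else sgn P.1 j := by
  simp only [flp, sgn, Finset.mem_symmDiff, Finset.mem_filter, hj, true_and]
  by_cases h1 : j ∈ P.1 <;> by_cases h2 : d ≤ j <;> simp [h1, h2]

omit hΩ in
theorem flp_eq {d : Ω} {F : Finset Ω} (hd : ⊥ < d) (hF : mx F < d)
    (P : {P : Finset Ω // P ∈ F.powerset}) : flp d F P = P := by
  apply Subtype.ext
  simp only [flp]
  have : F.filter (fun j => d ≤ j) = ∅ := by
    rw [Finset.filter_eq_empty_iff]
    intro j hj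
    exact not_le.2 ((mx_lt hd).1 hF j hj)
  rw [this]
  simp

/-- The flip operator. -/
noncomputable def th (d : Ω) : L1 (Gen Ω) →L[ℝ] L1 (Gen Ω) :=
  l1ext (fun k => bp (⟨k.1, flp d k.1 k.2⟩ : Gen Ω)) 1 (fun _ => (norm_bp _).le)

omit [OrderBot Ω] hΩ in
theorem th_RR {d : Ω} {F : Finset Ω} {j : Ω} (hj : j ∈ F) :
    th d (RR F j) = if d ≤ j then - RR F j else RR F j := by
  unfold RR
  rw [map_sum]
  have h1 : ∀ P ∈ (Finset.univ : Finset {P : Finset Ω // P ∈ F.powerset}),
      th d (sgn P.1 j • bp (⟨F, P⟩ : Gen Ω)) =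
        sgn (flp d F (flp d F P)).1 j • bp (⟨F, flp d F P⟩ : Gen Ω) := by
    intro P _
    rw [map_smul, flp_flp]
    unfold th
    rw [l1ext_bp]
  rw [Finset.sum_congr rfl h1]
  have h2 : ∑ P, sgn (flp d F (flp d F P)).1 j • bp (⟨F, flp d F P⟩ : Gen Ω) =
      ∑ P, sgn (flp d F P).1 j • bp (⟨F, P⟩ : Gen Ω) :=
    Equiv.sum_comp (Function.Involutive.toPerm (flp d F) (flp_flp d F))
      (fun P => sgn (flp d F P).1 j • bp (⟨F, P⟩ : Gen Ω))
  rw [h2]
  split_ifs with h
  · rw [← Finset.sum_neg_distrib]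
    apply Finset.sum_congr rfl
    intro P _
    rw [sgn_flp hj, if_pos h, neg_smul]
  · apply Finset.sum_congr rfl
    intro P _
    rw [sgn_flp hj, if_neg h]

/-- The averaging operator. -/
noncomputable def DD (d : Ω) : L1 (Gen Ω) →L[ℝ] L1 (Gen Ω) :=
  (1 / 2 : ℝ) • (ContinuousLinearMap.id ℝ _ + th d)

omit [OrderBot Ω] hΩ in
theorem DD_RR {d : Ω} {F : Finset Ω} {j : Ω} (hj : j ∈ F) :
    DD d (RR F j) = if d ≤ j then 0 else RR F j := by
  unfold DD
  rw [smul_apply, add_apply, ContinuousLinearMap.id_apply, th_RR hj]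
  split_ifs
  · simp
  · rw [← two_smul ℝ, smul_smul]; norm_num

omit hΩ in
theorem DD_bp {d : Ω} (hd : ⊥ < d) {k : Gen Ω} (hk : mx k.1 < d) : DD d (bp k) = bp k := by
  unfold DD th
  rw [smul_apply, add_apply, ContinuousLinearMap.id_apply, l1ext_bp, flp_eq hd hk]
  rw [← two_smul ℝ, smul_smul]; norm_num

omit [OrderBot Ω] hΩ in
theorem blk_of_TT {F : Finset Ω} {x : L1 (Gen Ω)} (h : TT (blk F x) = 0) :
    ∃ c : Ω → ℝ, blk F x = ∑ j ∈ F, c j • RR F j := by
  have h1 : TT (blk F x) = (1 / (1 + (F.card : ℝ))) • (blk F x - ∑ j ∈ F,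
      ((1 / 2 : ℝ) ^ F.card * ∑ P : {P : Finset Ω // P ∈ F.powerset}, x ⟨F, P⟩ * sgn P.1 j) •
        RR F j) := by
    conv_lhs => rw [blk_eq, map_sum]
    have h2 : ∀ P ∈ (Finset.univ : Finset {P : Finset Ω // P ∈ F.powerset}),
        TT (x ⟨F, P⟩ • bp (⟨F, P⟩ : Gen Ω)) = (1 / (1 + (F.card : ℝ))) •
          (x ⟨F, P⟩ • bp (⟨F, P⟩ : Gen Ω) -
            ∑ j ∈ F, ((1 / 2 : ℝ) ^ F.card * (x ⟨F, P⟩ * sgn P.1 j)) • RR F j) := by
      intro P _
      rw [map_smul]
      unfold TT
      rw [l1ext_bp]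
      unfold tv
      rw [smul_comm, smul_sub]
      congr 2
      rw [Finset.smul_sum, Finset.smul_sum]
      apply Finset.sum_congr rfl
      intro j _
      rw [smul_smul, smul_smul]
      congr 1
      ring
    rw [Finset.sum_congr rfl h2, ← Finset.smul_sum, Finset.sum_sub_distrib, Finset.sum_comm,
      ← blk_eq]
    congr 2
    apply Finset.sum_congr rfl
    intro j _
    rw [← Finset.sum_smul, ← Finset.mul_sum]
  rw [h1, smul_eq_zero] at h
  refine ⟨fun j => (1 / 2 : ℝ) ^ F.card *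
    ∑ P : {P : Finset Ω // P ∈ F.powerset}, x ⟨F, P⟩ * sgn P.1 j, ?_⟩
  rcases h with h | h
  · exfalso
    have : (0 : ℝ) < 1 / (1 + (F.card : ℝ)) := by positivity
    linarith
  · exact sub_eq_zero.1 h

theorem countable_eV_support (x : L1 (Gen Ω)) : {j | AA (eV j) x ≠ 0}.Countable := by
  have h1 : (Function.support fun k => x k).Countable := (L1.summable x).countable_support
  have h2 : (⋃ k ∈ (Function.support fun k => x k), (k.1 : Set Ω)).Countable :=
    h1.biUnion fun k _ => (Finset.countable_toSet _)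
  apply h2.mono
  intro j hj
  by_contra hcon
  simp only [Set.mem_iUnion, not_exists] at hcon
  apply hj
  have h3 := (hasSum_bp x).mapL (AA (eV j))
  have h4 : (fun k => AA (eV j) (x k • bp k)) = fun _ => 0 := by
    ext k
    rw [map_smul, AA_eV_bp]
    by_cases hk : x k = 0
    · rw [hk, zero_smul]
    · rw [if_neg, smul_zero]
      intro hjk
      exact hcon k hk hjk
  rw [h4] at h3
  exact h3.unique hasSum_zero

section

variable {X : Type} [NormedAddCommGroup X] [NormedSpace ℝ X]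

theorem mem_of_hasSum {I : Type*} {N : Submodule ℝ X} (hN : IsClosed (N : Set X)) {f : I → X}
    {a : X} (h : HasSum f a) (hf : ∀ i, f i ∈ N) : a ∈ N :=
  hN.mem_of_tendsto h (Filter.Eventually.of_forall fun _ => N.sum_mem fun i _ => hf i)

/-- The closed span of the images of the generators below `d`. -/
noncomputable def Xd (π : L1 (Gen Ω) →L[ℝ] X) (d : Ω) : Submodule ℝ X :=
  (Submodule.span ℝ ((fun k : Gen Ω => π (bp k)) '' {k | mx k.1 < d})).topologicalClosure

/-- The closed span of the `e_j`, `j ≥ d`. -/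
noncomputable def Eg (π : L1 (Gen Ω) →L[ℝ] X) (d : Ω) : Submodule ℝ X :=
  (Submodule.span ℝ ((fun j : Ω => π (eV j)) '' {j | d ≤ j})).topologicalClosure

theorem isSeparable_Xd (π : L1 (Gen Ω) →L[ℝ] X) {d : Ω} (hd : ⊥ < d) :
    TopologicalSpace.IsSeparable (Xd π d : Set X) := by
  have hcount : {k : Gen Ω | mx k.1 < d}.Countable := by
    have h1 : ({F : Finset Ω | (F : Set Ω) ⊆ Set.Iio d} ×ˢ
        {F : Finset Ω | (F : Set Ω) ⊆ Set.Iio d}).Countable :=
      (countable_finset_subset (hΩ.iio d)).prod (countable_finset_subset (hΩ.iio d))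
    have hinj : Function.Injective (fun k : Gen Ω => (k.1, k.2.1)) := by
      rintro ⟨F, P, hP⟩ ⟨G, Q, hQ⟩ h
      simp only [Prod.mk.injEq] at h
      obtain ⟨rfl, rfl⟩ := h
      rfl
    apply (h1.preimage_of_injOn (f := fun k : Gen Ω => (k.1, k.2.1)) hinj.injOn).mono
    intro k hk
    have h2 : (k.1 : Set Ω) ⊆ Set.Iio d := fun j hj => (mx_lt hd).1 hk j hj
    exact ⟨h2, fun j hj => h2 ((Finset.mem_powerset.1 k.2.2) hj)⟩
  unfold Xd
  rw [Submodule.topologicalClosure_coe]
  exact ((hcount.image _).isSeparable.span (R := ℝ)).closure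

theorem decomp (π : L1 (Gen Ω) →L[ℝ] X)
    (hRR : ∀ (F : Finset Ω) (j : Ω), j ∈ F → π (RR F j) = (2 ^ F.card * lam F.card) • π (eV j))
    {d0 d : Ω} (hd : ⊥ < d) (hd0 : d0 ≤ d) {x : L1 (Gen Ω)}
    (hx : ∀ F : Finset Ω, d0 ≤ mx F → TT (blk F x) = 0) :
    π (DD d x) ∈ Xd π d ∧ π (x - DD d x) ∈ Eg π d := by
  have heV : ∀ j < d, π (eV j) ∈ Xd π d := by
    intro j hj
    unfold eV RR
    rw [map_smul, map_sum]
    apply Submodule.smul_mem
    apply Submodule.sum_mem
    intro P _
    rw [map_smul]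
    apply Submodule.smul_mem
    apply Submodule.le_topologicalClosure
    apply Submodule.subset_span
    refine ⟨⟨{j}, P⟩, ?_, rfl⟩
    have : mx ({j} : Finset Ω) = j := by simp [mx]
    simp only [Set.mem_ofPred_eq]
    rw [this]
    exact hj
  have heV' : ∀ j, d ≤ j → π (eV j) ∈ Eg π d := by
    intro j hj
    apply Submodule.le_topologicalClosure
    apply Submodule.subset_span
    exact ⟨j, hj, rfl⟩
  have hblk : ∀ F, π (DD d (blk F x)) ∈ Xd π d ∧
      π (blk F x - DD d (blk F x)) ∈ Eg π d := by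
    intro F
    rcases lt_or_ge (mx F) d with hF | hF
    · have h1 : DD d (blk F x) = blk F x := by
        rw [blk_eq, map_sum]
        apply Finset.sum_congr rfl
        intro P _
        rw [map_smul, DD_bp hd (k := (⟨F, P⟩ : Gen Ω)) hF]
      rw [h1, sub_self, map_zero]
      refine ⟨?_, Submodule.zero_mem _⟩
      rw [blk_eq, map_sum]
      apply Submodule.sum_mem
      intro P _
      rw [map_smul]
      apply Submodule.smul_mem
      apply Submodule.le_topologicalClosure
      apply Submodule.subset_span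
      exact ⟨⟨F, P⟩, hF, rfl⟩
    · obtain ⟨c, hc⟩ := blk_of_TT (hx F (hd0.trans hF))
      rw [hc]
      constructor
      · rw [map_sum, map_sum]
        apply Submodule.sum_mem
        intro j hj
        rw [map_smul, map_smul]
        apply Submodule.smul_mem
        rw [DD_RR hj]
        split_ifs with h
        · rw [map_zero]; exact Submodule.zero_mem _
        · rw [hRR F j hj]
          exact Submodule.smul_mem _ _ (heV j (not_le.1 h))
      · rw [map_sum, ← Finset.sum_sub_distrib, map_sum]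
        apply Submodule.sum_mem
        intro j hj
        rw [map_smul, ← smul_sub, map_smul]
        apply Submodule.smul_mem
        rw [DD_RR hj]
        split_ifs with h
        · rw [sub_zero, hRR F j hj]
          exact Submodule.smul_mem _ _ (heV' j h)
        · rw [sub_self, map_zero]; exact Submodule.zero_mem _
  constructor
  · have h1 : HasSum (fun F => π (DD d (blk F x))) (π (DD d x)) :=
      ((hasSum_blk x).mapL (DD d)).mapL π
    exact mem_of_hasSum (Submodule.isClosed_topologicalClosure _) h1 (fun F => (hblk F).1)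
  · have h1 : HasSum (fun F => π (blk F x - DD d (blk F x))) (π (x - DD d x)) := by
      have h2 := ((hasSum_blk x).sub ((hasSum_blk x).mapL (DD d))).mapL π
      exact h2
    exact mem_of_hasSum (Submodule.isClosed_topologicalClosure _) h1 (fun F => (hblk F).2)

end

section

variable {X : Type} [NormedAddCommGroup X] [NormedSpace ℝ X]
variable (π : L1 (Gen Ω) →L[ℝ] X) (A : X →L[ℝ] X →L[ℝ] ℝ)
  (hA : ∀ x y, A (π x) (π y) = AA x y)

include hA

theorem A_symm (hπs : Function.Surjective π) (x y : X) : A x y = A y x := by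
  obtain ⟨x, rfl⟩ := hπs x
  obtain ⟨y, rfl⟩ := hπs y
  rw [hA, hA, AA_symm]

theorem A_eV_Xd {d j : Ω} (hd : ⊥ < d) (hj : d ≤ j) {y : X} (hy : y ∈ Xd π d) :
    A (π (eV j)) y = 0 := by
  have h : Set.EqOn (A (π (eV j))) (0 : X →L[ℝ] ℝ)
      ((fun k : Gen Ω => π (bp k)) '' {k | mx k.1 < d}) := by
    rintro _ ⟨k, hk, rfl⟩
    simp only [zero_apply]
    rw [hA, AA_eV_bp, if_neg]
    intro hjk
    exact absurd ((mx_lt hd).1 hk j hjk) (not_lt.2 hj)
  exact ContinuousLinearMap.eqOn_closure_span h hy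

theorem A_Eg_Xd {d : Ω} (hd : ⊥ < d) {y z : X} (hy : y ∈ Xd π d) (hz : z ∈ Eg π d) :
    A z y = 0 := by
  have h : Set.EqOn (A.flip y) (0 : X →L[ℝ] ℝ) ((fun j : Ω => π (eV j)) '' {j | d ≤ j}) := by
    rintro _ ⟨j, hj, rfl⟩
    simp only [zero_apply, ContinuousLinearMap.flip_apply]
    exact A_eV_Xd π A hA hd hj hy
  exact ContinuousLinearMap.eqOn_closure_span h hz

theorem A_eV_eV (i j : Ω) : A (π (eV i)) (π (eV j)) = if i = j then 1 else 0 := by
  rw [hA, AA_eV_eV]

theorem A_eV_Eg {d j : Ω} (hj : j < d) {z : X} (hz : z ∈ Eg π d) : A (π (eV j)) z = 0 := by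
  have h : Set.EqOn (A (π (eV j))) (0 : X →L[ℝ] ℝ) ((fun j : Ω => π (eV j)) '' {j | d ≤ j}) := by
    rintro _ ⟨i, hi, rfl⟩
    simp only [zero_apply]
    rw [A_eV_eV π A hA, if_neg]
    rintro rfl
    exact absurd hj (not_lt.2 hi)
  exact ContinuousLinearMap.eqOn_closure_span h hz

theorem bessel {d : Ω} {z : X} (hz : z ∈ Eg π d) (j : Ω) :
    (A (π (eV j)) z) ^ 2 ≤ A z z := by
  classical
  have hcl : IsClosed {z : X | (A (π (eV j)) z) ^ 2 ≤ A z z} := by
    apply isClosed_le
    · fun_prop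
    · fun_prop
  have hsub : ((Submodule.span ℝ ((fun j : Ω => π (eV j)) '' {j | d ≤ j}) : Submodule ℝ X) : Set X)
      ⊆ {z : X | (A (π (eV j)) z) ^ 2 ≤ A z z} := by
    intro z hz
    have hz' : z ∈ Submodule.span ℝ (Set.range (fun j : Ω => π (eV j))) :=
      Submodule.span_mono (Set.image_subset_range _ _) hz
    rw [Finsupp.mem_span_range_iff_exists_finsupp] at hz'
    obtain ⟨c, rfl⟩ := hz'
    simp only [Set.mem_ofPred_eq, Finsupp.sum]
    have h1 : ∀ i : Ω, A (π (eV i)) (∑ k ∈ c.support, c k • π (eV k)) = c i := by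
      intro i
      rw [map_sum]
      have : ∀ k ∈ c.support, A (π (eV i)) (c k • π (eV k)) = if i = k then c k else 0 := by
        intro k _
        rw [map_smul, A_eV_eV π A hA, smul_eq_mul]
        split_ifs <;> simp
      rw [Finset.sum_congr rfl this, Finset.sum_ite_eq]
      split_ifs with h
      · rfl
      · exact (Finsupp.notMem_support_iff.1 h).symm
    have h2 : A (∑ k ∈ c.support, c k • π (eV k)) (∑ k ∈ c.support, c k • π (eV k)) =
        ∑ k ∈ c.support, c k ^ 2 := by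
      conv_lhs => rw [map_sum A, sum_apply]
      apply Finset.sum_congr rfl
      intro k _
      rw [map_smul, smul_apply, h1, smul_eq_mul, sq]
    rw [h1, h2]
    by_cases hj : j ∈ c.support
    · exact Finset.single_le_sum (f := fun k => c k ^ 2) (fun k _ => sq_nonneg _) hj
    · rw [Finsupp.notMem_support_iff.1 hj]
      simp only [ne_eq, OfNat.ofNat_ne_zero, not_false_eq_true, zero_pow]
      exact Finset.sum_nonneg fun k _ => sq_nonneg _
  exact closure_minimal hsub hcl hz

theorem eq_zero_of_Eg (hπs : Function.Surjective π) (hker : ∀ x, (∀ y, AA x y = 0) → π x = 0)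
    {d : Ω} {z : X} (hz : z ∈ Eg π d) (h0 : ∀ j, A (π (eV j)) z = 0) : z = 0 := by
  have key : ∀ k : Gen Ω, A z (π (bp k)) = 0 := by
    intro k
    have h : Set.EqOn (A.flip (π (bp k)))
        (∑ j ∈ k.1, (lam k.1.card * sgn k.2.1 j) • A (π (eV j)) : X →L[ℝ] ℝ)
        ((fun j : Ω => π (eV j)) '' {j | d ≤ j}) := by
      rintro _ ⟨i, hi, rfl⟩
      simp only [ContinuousLinearMap.flip_apply]
      rw [hA, AA_eV_bp, sum_apply]
      have : ∀ j ∈ k.1, ((lam k.1.card * sgn k.2.1 j) • A (π (eV j))) (π (eV i)) =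
          if j = i then lam k.1.card * sgn k.2.1 j else 0 := by
        intro j _
        rw [smul_apply, A_eV_eV π A hA, smul_eq_mul]
        split_ifs <;> simp
      rw [Finset.sum_congr rfl this, Finset.sum_ite_eq']
    have h2 := ContinuousLinearMap.eqOn_closure_span h hz
    rw [ContinuousLinearMap.flip_apply] at h2
    rw [h2, sum_apply]
    apply Finset.sum_eq_zero
    intro j _
    rw [smul_apply, h0, smul_zero]
  obtain ⟨w, rfl⟩ := hπs z
  apply hker
  intro y
  have : AA w y = (0 : L1 (Gen Ω) →L[ℝ] ℝ) y := by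
    apply clm_apply_eq
    intro k
    rw [← hA, key k]
    simp
  rw [this]
  simp

theorem caseB (hπs : Function.Surjective π) (hker : ∀ x, (∀ y, AA x y = 0) → π x = 0)
    (hRR : ∀ (F : Finset Ω) (j : Ω), j ∈ F → π (RR F j) = (2 ^ F.card * lam F.card) • π (eV j))
    (V : Submodule ℝ X) (hV : ∀ v ∈ V, A v v = 0) (d0 : Ω)
    (h : ∀ x, π x ∈ V → ∀ F : Finset Ω, d0 ≤ mx F → TT (blk F x) = 0) :
    TopologicalSpace.IsSeparable (V : Set X) := by
  classical
  obtain ⟨d, hd0⟩ := exists_gt' d0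
  have hd : ⊥ < d := lt_of_le_of_lt bot_le hd0
  let Y : Set X := (fun x => π (DD d x)) '' {x | π x ∈ V}
  have hYsub : Y ⊆ Xd π d := by
    rintro _ ⟨x, hx, rfl⟩
    exact (decomp π hRR hd hd0.le (h x hx)).1
  have hYsep : TopologicalSpace.IsSeparable Y := (isSeparable_Xd π hd).mono hYsub
  obtain ⟨t, htY, htc, htd⟩ := hYsep.exists_countable_dense_subset
  have hg : ∀ y : X, ∃ x : L1 (Gen Ω), y ∈ t → π x ∈ V ∧ π (DD d x) = y := by
    intro y
    by_cases hy : y ∈ t
    · obtain ⟨x, hx, hxy⟩ := htY hy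
      exact ⟨x, fun _ => ⟨hx, hxy⟩⟩
    · exact ⟨0, fun h => absurd h hy⟩
  choose g hg using hg
  let Γ : Set Ω := ⋃ y ∈ t, {j | AA (eV j) (g y) ≠ 0}
  have hΓ : Γ.Countable := htc.biUnion fun y _ => countable_eV_support _
  have hclaim : ∀ x, π x ∈ V → ∀ j, d ≤ j → j ∉ Γ → AA (eV j) x = 0 := by
    intro x hx j hj hjΓ
    by_contra hne
    have hpos : 0 < (AA (eV j) x) ^ 2 := by positivity
    -- choose a good approximation
    have hy0 : π (DD d x) ∈ closure t := htd ⟨x, hx, rfl⟩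
    have hcont : ∃ y ∈ t, |A (π (DD d x) - y) (π (DD d x) - y)| < (AA (eV j) x) ^ 2 := by
      have hU : IsOpen {y : X | |A (π (DD d x) - y) (π (DD d x) - y)| < (AA (eV j) x) ^ 2} := by
        apply isOpen_lt
        · fun_prop
        · fun_prop
      have hmem : π (DD d x) ∈ {y : X | |A (π (DD d x) - y) (π (DD d x) - y)| <
          (AA (eV j) x) ^ 2} := by
        simp only [Set.mem_ofPred_eq, sub_self, map_zero, abs_zero]
        exact hpos
      obtain ⟨y, hy1, hy2⟩ := mem_closure_iff.1 hy0 _ hU hmem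
      exact ⟨y, hy2, hy1⟩
    obtain ⟨y, hyt, hy⟩ := hcont
    obtain ⟨hgV, hgy⟩ := hg y hyt
    have hx'V : π (x - g y) ∈ V := by
      rw [map_sub]; exact V.sub_mem hx hgV
    obtain ⟨h1, h2⟩ := decomp π hRR hd hd0.le (h _ hx'V)
    have h3 : π (x - g y) = π (DD d (x - g y)) + π ((x - g y) - DD d (x - g y)) := by
      rw [← map_add]; congr 1; abel
    have h4 : π (DD d (x - g y)) = π (DD d x) - y := by
      rw [map_sub, map_sub, hgy]
    set y' := π (DD d (x - g y)) with hy'
    set z' := π ((x - g y) - DD d (x - g y)) with hz'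
    have h5 : A (π (x - g y)) (π (x - g y)) = 0 := hV _ hx'V
    have h6 : A z' y' = 0 := A_Eg_Xd π A hA hd h1 h2
    have h7 : A y' z' = 0 := by rw [A_symm π A hA hπs]; exact h6
    rw [h3, map_add A, add_apply, map_add, map_add, h6, h7] at h5
    have h8 : (A (π (eV j)) z') ^ 2 ≤ A z' z' := bessel π A hA h2 j
    have h9 : A (π (eV j)) (π (x - g y)) = A (π (eV j)) z' := by
      rw [h3, map_add, A_eV_Xd π A hA hd hj h1, zero_add]
    have h10 : A (π (eV j)) (π (x - g y)) = AA (eV j) x := by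
      rw [hA, map_sub]
      have : AA (eV j) (g y) = 0 := by
        by_contra hcon
        exact hjΓ (Set.mem_biUnion hyt hcon)
      rw [this, sub_zero]
    rw [← h9, h10] at h8
    rw [← h4] at hy
    have h11 := neg_abs_le (A y' y')
    linarith
  obtain ⟨d1, hd1⟩ := exists_bound (hΓ.union (Set.countable_singleton d))
  have hdd1 : d < d1 := hd1 d (Or.inr rfl)
  apply (isSeparable_Xd π (lt_of_le_of_lt bot_le hdd1)).mono
  intro v hv
  obtain ⟨x, rfl⟩ := hπs v
  have hd1' : ⊥ < d1 := lt_of_le_of_lt bot_le hdd1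
  obtain ⟨h1, h2⟩ := decomp π hRR hd1' (hd0.le.trans hdd1.le) (h _ hv)
  have h3 : π x = π (DD d1 x) + π (x - DD d1 x) := by
    rw [← map_add]; congr 1; abel
  have h4 : π (x - DD d1 x) = 0 := by
    apply eq_zero_of_Eg π A hA hπs hker h2
    intro j
    rcases lt_or_ge j d1 with hj | hj
    · exact A_eV_Eg π A hA hj h2
    · have h5 : A (π (eV j)) (π x) = 0 := by
        rw [hA]
        apply hclaim x hv j (hdd1.le.trans hj)
        intro hjΓ
        exact absurd (hd1 j (Or.inl hjΓ)) (not_lt.2 hj)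
      rw [h3, map_add, A_eV_Xd π A hA hd1' hj h1, zero_add] at h5
      exact h5
  rw [h3, h4, add_zero]
  exact h1

end

end Pool.Agent.Lib.MP_7cf0e7_an
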