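import Pool.Agent.Lib.MP_7cf0e7_an.Omega

/-!
# A coherent sequence of finite-to-one functions, and the two-sign lemma
-/

set_option autoImplicit false

namespace Pool.Agent.Lib.MP_7cf0e7_an

variable {Ω : Type} [LinearOrder Ω] [OrderBot Ω] [hΩ : IsOm Ω]

theorem exists_seq (a : Ω) : ∃ f : ℕ → Ω, ⊥ < a → (∀ n, f n < a) ∧ ∀ x < a, ∃ n, x ≤ f n := by
  by_cases ha : ⊥ < a
  · obtain ⟨f, hf⟩ := (hΩ.iio a).exists_eq_range ⟨⊥, ha⟩
    refine ⟨f, fun _ => ⟨fun n => ?_, fun x hx => ?_⟩⟩
    · have : f n ∈ Set.Iio a := by rw [hf]; exact ⟨n, rfl⟩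
      exact this
    · have : x ∈ Set.range f := by rw [← hf]; exact hx
      obtain ⟨n, hn⟩ := this
      exact ⟨n, hn.ge⟩
  · exact ⟨fun _ => ⊥, fun h => absurd h ha⟩

/-- There is a coherent family of finite-to-one functions. -/
theorem exists_coh : ∃ e : Ω → Ω → ℕ, (∀ a n, {x | x < a ∧ e a x = n}.Finite) ∧
    (∀ a b, {x | x < a ∧ x < b ∧ e a x ≠ e b x}.Finite) := by
  classical
  choose sq hsq using exists_seq (Ω := Ω)
  let F : (a : Ω) → ((b : Ω) → b < a → (Ω → ℕ)) → (Ω → ℕ) := fun a g x =>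
    if h : x < a then
      max (g (sq a (Nat.find ((hsq a (lt_of_le_of_lt bot_le h)).2 x h)))
        ((hsq a (lt_of_le_of_lt bot_le h)).1 _) x) (Nat.find ((hsq a (lt_of_le_of_lt bot_le h)).2 x h))
    else 0
  let e : Ω → Ω → ℕ := WellFounded.fix (wellFounded_lt (α := Ω)) F
  have hbot : ∀ {a x : Ω}, x < a → ⊥ < a := fun h => lt_of_le_of_lt bot_le h
  have he : ∀ a x, ∀ h : x < a, e a x =
      max (e (sq a (Nat.find ((hsq a (hbot h)).2 x h))) x) (Nat.find ((hsq a (hbot h)).2 x h)) := by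
    intro a x h
    have h1 : e a = F a (fun b _ => e b) := WellFounded.fix_eq _ F a
    rw [h1]
    simp only [F, dif_pos h]
  have hP : ∀ a : Ω, (∀ n, {x | x < a ∧ e a x ≤ n}.Finite) ∧
      (∀ b < a, {x | x < b ∧ e a x ≠ e b x}.Finite) := by
    intro a
    induction a using WellFoundedLT.induction with
    | _ a ih =>
    constructor
    · intro m
      by_cases ha : ⊥ < a
      swap
      · have : {x | x < a ∧ e a x ≤ m} = ∅ := by
          ext x; simp only [Set.mem_ofPred_eq, Set.mem_empty_iff_false, iff_false]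
          rintro ⟨h, _⟩; exact ha (hbot h)
        rw [this]; exact Set.finite_empty
      have hfin : (⋃ n ∈ Finset.range (m + 1),
          ({x | x < sq a n ∧ e (sq a n) x ≤ m} ∪ {sq a n})).Finite := by
        apply Set.Finite.biUnion (Finset.finite_toSet _)
        intro n _
        exact ((ih _ ((hsq a ha).1 n)).1 m).union (Set.finite_singleton _)
      apply hfin.subset
      rintro x ⟨hxa, hx⟩
      have h1 := he a x hxa
      have hn := Nat.find_spec ((hsq a (hbot hxa)).2 x hxa)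
      set n := Nat.find ((hsq a (hbot hxa)).2 x hxa) with hndef
      simp only [Set.mem_iUnion, Finset.mem_range]
      have hnm : n ≤ m := (le_max_right _ _).trans (h1 ▸ hx)
      refine ⟨n, by omega, ?_⟩
      rcases hn.lt_or_eq with h | h
      · left
        exact ⟨h, (le_max_left _ _).trans (h1 ▸ hx)⟩
      · right
        exact h
    · intro b hb
      have ha : ⊥ < a := hbot hb
      obtain ⟨N, hN⟩ := (hsq a ha).2 b hb
      have hfin : (⋃ n ∈ Finset.range (N + 1),
          ({sq a n} ∪ {x | x < sq a n ∧ e (sq a n) x ≤ n} ∪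
            {x | x < sq a n ∧ x < b ∧ e (sq a n) x ≠ e b x})).Finite := by
        apply Set.Finite.biUnion (Finset.finite_toSet _)
        intro n _
        refine ((Set.finite_singleton _).union ((ih _ ((hsq a ha).1 n)).1 n)).union ?_
        rcases lt_trichotomy (sq a n) b with h | h | h
        · apply ((ih b hb).2 _ h).subset
          rintro x ⟨h1, h2, h3⟩
          exact ⟨h1, h3.symm⟩
        · rw [h]
          simp
        · apply ((ih _ ((hsq a ha).1 n)).2 b h).subset
          rintro x ⟨h1, h2, h3⟩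
          exact ⟨h2, h3⟩
      apply hfin.subset
      rintro x ⟨hxb, hx⟩
      have hxa : x < a := hxb.trans hb
      have h1 := he a x hxa
      have hn := Nat.find_spec ((hsq a (hbot hxa)).2 x hxa)
      have hnN : Nat.find ((hsq a (hbot hxa)).2 x hxa) ≤ N :=
        Nat.find_min' _ (hxb.le.trans hN)
      set n := Nat.find ((hsq a (hbot hxa)).2 x hxa) with hndef
      simp only [Set.mem_iUnion, Finset.mem_range]
      refine ⟨n, by omega, ?_⟩
      rcases hn.lt_or_eq with h | h
      swap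
      · left; left; exact h
      by_cases hle : e (sq a n) x ≤ n
      · left; right; exact ⟨h, hle⟩
      · right
        refine ⟨h, hxb, ?_⟩
        rw [max_eq_left (not_le.1 hle).le] at h1
        rwa [← h1]
  refine ⟨e, fun a n => ?_, fun a b => ?_⟩
  · apply ((hP a).1 n).subset
    rintro x ⟨h1, h2⟩
    exact ⟨h1, h2.le⟩
  · rcases lt_trichotomy a b with h | h | h
    · apply ((hP b).2 a h).subset
      rintro x ⟨h1, h2, h3⟩
      exact ⟨h1, h3.symm⟩
    · subst h
      simp
    · apply ((hP a).2 b h).subset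
      rintro x ⟨h1, h2, h3⟩
      exact ⟨h2, h3⟩

/-- The coherent family. -/
noncomputable def ee (a x : Ω) : ℕ := (exists_coh (Ω := Ω)).choose a x

theorem ee_fin (a : Ω) (n : ℕ) : {x | x < a ∧ ee a x = n}.Finite :=
  (exists_coh (Ω := Ω)).choose_spec.1 a n

theorem ee_coh (a b : Ω) : {x | x < a ∧ x < b ∧ ee a x ≠ ee b x}.Finite :=
  (exists_coh (Ω := Ω)).choose_spec.2 a b

/-- The restriction of `ee a` to the elements `≤ x`. -/
noncomputable def rst (x a : Ω) : Ω → ℕ := fun z => if z ≤ x then ee a z else 0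

theorem rst_eq_iff {x a b : Ω} : rst x a = rst x b ↔ ∀ z ≤ x, ee a z = ee b z := by
  constructor
  · intro h z hz
    have := congrFun h z
    simpa [rst, hz] using this
  · intro h
    ext z
    unfold rst
    split_ifs with hz
    · exact h z hz
    · rfl

/-- Only countably many restrictions to a countable initial segment. -/
theorem countable_rst (x : Ω) : (Set.range (rst (Ω := Ω) x)).Countable := by
  classical
  obtain ⟨c, hc⟩ := exists_gt' x
  have : Countable (Set.Iic x) := (countable_Iic x).to_subtype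
  -- the restrictions with `a ≤ x` are countably many
  have h1 : (rst x '' Set.Iic x).Countable := (countable_Iic x).image _
  -- the others are finite modifications of `ee c`
  have h2 : (rst x '' Set.Ioi x).Countable := by
    have hfin : ∀ a : Ω, x < a → {z | z ≤ x ∧ ee a z ≠ ee c z}.Finite := by
      intro a ha
      apply (ee_coh a c).subset
      rintro z ⟨hz1, hz2⟩
      exact ⟨lt_of_le_of_lt hz1 ha, lt_of_le_of_lt hz1 hc, hz2⟩
    -- encode by the finite set of pairs
    let G : Finset (Set.Iic x × ℕ) → Ω → ℕ := fun D z =>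
      if hz : z ≤ x then
        (if h : ∃ n, ((⟨z, hz⟩ : Set.Iic x), n) ∈ D then h.choose else ee c z)
      else 0
    have hcG : (Set.range G).Countable := Set.countable_range G
    apply hcG.mono
    rintro _ ⟨a, ha, rfl⟩
    have hf := hfin a ha
    let D : Finset (Set.Iic x × ℕ) :=
      hf.toFinset.attach.image (fun z => (⟨⟨z.1, ((hf.mem_toFinset).1 z.2).1⟩, ee a z.1⟩ :
        Set.Iic x × ℕ))
    refine ⟨D, ?_⟩
    have key : ∀ (p : Set.Iic x × ℕ), p ∈ D → p.2 = ee a p.1 := by
      intro p hp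
      obtain ⟨w, -, rfl⟩ := Finset.mem_image.1 hp
      rfl
    ext z
    simp only [G, rst]
    split_ifs with hz h
    · exact key _ h.choose_spec
    · by_contra hne
      apply h
      refine ⟨ee a z, ?_⟩
      simp only [D, Finset.mem_image, Finset.mem_attach, true_and]
      exact ⟨⟨z, (hf.mem_toFinset).2 ⟨hz, fun h' => hne h'.symm⟩⟩, rfl⟩
    · rfl
  have : Set.range (rst (Ω := Ω) x) = rst x '' Set.Iic x ∪ rst x '' Set.Ioi x := by
    rw [← Set.image_union, Set.Iic_union_Ioi, Set.image_univ]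
  rw [this]
  exact h1.union h2

/-- Two-sign lemma. -/
theorem two_sign {S : Set Ω} (hS : ¬ S.Countable) (m g : Ω → Ω) (hm : ∀ d ∈ S, d ≤ m d) :
    (∃ d ∈ S, ∃ d' ∈ S, g d < d' ∧ ∃ z < d, z < d' ∧ (∀ y < z, ee (m d) y = ee (m d') y) ∧
      ee (m d) z < ee (m d') z) ∧
    (∃ d ∈ S, ∃ d' ∈ S, g d < d' ∧ ∃ z < d, z < d' ∧ (∀ y < z, ee (m d) y = ee (m d') y) ∧
      ee (m d') z < ee (m d) z) := by
  classical
  let T : Ω → (Ω → ℕ) → Set Ω := fun a v => {d ∈ S | a ≤ d ∧ ∀ x < a, ee (m d) x = v x}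
  have hbig : ∀ a, ∃ v, ¬ (T a v).Countable := by
    intro a
    obtain ⟨b, hb, hu⟩ := pigeon (unc_ge hS a) (fun d => rst a (m d))
      ((countable_rst a).mono (by rintro _ ⟨d, _, rfl⟩; exact ⟨_, rfl⟩))
    refine ⟨b, fun hc => hu (hc.mono ?_)⟩
    rintro d ⟨⟨h1, h2⟩, h3⟩
    refine ⟨h1, h2, fun x hx => ?_⟩
    have h4 : rst a (m d) = b := h3
    rw [← h4]
    simp [rst, hx.le]
  by_cases hex : ∃ a v w, ¬ (T a v).Countable ∧ ¬ (T a w).Countable ∧ ∃ x < a, v x ≠ w x
  · obtain ⟨a, v, w, hv, hw, hx⟩ := hex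
    -- wlog the first difference is `v < w`
    have key : ∀ v w : Ω → ℕ, ¬ (T a v).Countable → ¬ (T a w).Countable →
        (∃ z < a, (∀ y < z, v y = w y) ∧ v z < w z) →
        (∃ d ∈ S, ∃ d' ∈ S, g d < d' ∧ ∃ z < d, z < d' ∧ (∀ y < z, ee (m d) y = ee (m d') y) ∧
          ee (m d) z < ee (m d') z) ∧
        (∃ d ∈ S, ∃ d' ∈ S, g d < d' ∧ ∃ z < d, z < d' ∧ (∀ y < z, ee (m d) y = ee (m d') y) ∧
          ee (m d') z < ee (m d) z) := by
      rintro v w hv hw ⟨z, hza, hzeq, hzlt⟩
      constructor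
      · obtain ⟨d, hd, -⟩ := exists_mem_gt hv ⊥
        obtain ⟨d', hd', hgt⟩ := exists_mem_gt hw (g d)
        refine ⟨d, hd.1, d', hd'.1, hgt, z, lt_of_lt_of_le hza hd.2.1,
          lt_of_lt_of_le hza hd'.2.1, ?_, ?_⟩
        · intro y hy
          rw [hd.2.2 y (hy.trans hza), hd'.2.2 y (hy.trans hza), hzeq y hy]
        · rw [hd.2.2 z hza, hd'.2.2 z hza]; exact hzlt
      · obtain ⟨d, hd, -⟩ := exists_mem_gt hw ⊥
        obtain ⟨d', hd', hgt⟩ := exists_mem_gt hv (g d)
        refine ⟨d, hd.1, d', hd'.1, hgt, z, lt_of_lt_of_le hza hd.2.1,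
          lt_of_lt_of_le hza hd'.2.1, ?_, ?_⟩
        · intro y hy
          rw [hd.2.2 y (hy.trans hza), hd'.2.2 y (hy.trans hza), hzeq y hy]
        · rw [hd.2.2 z hza, hd'.2.2 z hza]; exact hzlt
    have hne : {x : Ω | x < a ∧ v x ≠ w x}.Nonempty := hx
    let z := WellFounded.min (wellFounded_lt (α := Ω)) _ hne
    have hz : z < a ∧ v z ≠ w z := WellFounded.min_mem (wellFounded_lt (α := Ω)) _ hne
    have hz' : ∀ y < z, v y = w y := by
      intro y hy
      by_contra hcon
      exact WellFounded.not_lt_min (wellFounded_lt (α := Ω)) {x : Ω | x < a ∧ v x ≠ w x}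
        ⟨hy.trans hz.1, hcon⟩ hy
    rcases lt_or_gt_of_ne hz.2 with h | h
    · exact key v w hv hw ⟨z, hz.1, hz', h⟩
    · exact key w v hw hv ⟨z, hz.1, fun y hy => (hz' y hy).symm, h⟩
  · exfalso
    push Not at hex
    choose v hv using hbig
    choose up hup using exists_gt' (Ω := Ω)
    let t : Ω → ℕ := fun z => v (up z) z
    have ht : ∀ a, ∀ z < a, v a z = t z := by
      intro a z hza
      have hmono : ∀ b c, b ≤ c → ¬ (T b (v c)).Countable := by
        intro b c hbc hcount
        apply hv c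
        apply hcount.mono
        rintro d ⟨h1, h2, h3⟩
        exact ⟨h1, hbc.trans h2, fun x hx => h3 x (lt_of_lt_of_le hx hbc)⟩
      have h1 := hex a (v a) (v (max a (up z))) (hv a) (hmono _ _ (le_max_left _ _)) z hza
      have h2 := hex (up z) (v (up z)) (v (max a (up z))) (hv _) (hmono _ _ (le_max_right _ _)) z
        (hup z)
      rw [h1, ← h2]
    -- some fibre of `t` is uncountable
    have hun : ¬ (Set.univ : Set Ω).Countable := by
      rw [Set.countable_univ_iff]
      exact not_countable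
    obtain ⟨n, -, hn⟩ := pigeon hun t (Set.to_countable _)
    have hinf : {a ∈ Set.univ | t a = n}.Infinite := fun hfin => hn hfin.countable
    let φ := hinf.natEmbedding
    obtain ⟨b, hb⟩ := exists_bound (Set.countable_range fun k => (φ k : Ω))
    obtain ⟨d, hd, -⟩ := exists_mem_gt (hv b) ⊥
    have hfin := ee_fin (m d) n
    have hsub : Set.range (fun k => (φ k : Ω)) ⊆ {x | x < m d ∧ ee (m d) x = n} := by
      rintro _ ⟨k, rfl⟩
      have hlt : (φ k : Ω) < b := hb _ ⟨k, rfl⟩
      refine ⟨lt_of_lt_of_le hlt (hd.2.1.trans (hm d hd.1)), ?_⟩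
      rw [hd.2.2 _ hlt, ht b _ hlt]
      exact (φ k).2.2
    have hr : (Set.range (fun k => (φ k : Ω))).Infinite :=
      Set.infinite_range_of_injective (fun i j hij => φ.injective (Subtype.ext hij))
    exact hr (hfin.subset hsub)

/-- The set of differences of `ee a` and `ee b` below `min a b`. -/
def dset (a b : Ω) : Set Ω := {z | z < a ∧ z < b ∧ ee a z ≠ ee b z}

open Classical in
/-- The sign of a pair. -/
noncomputable def sg (a b : Ω) : ℝ :=
  if h : (dset a b).Nonempty then
    if (a < b ↔ ee a (WellFounded.min (wellFounded_lt (α := Ω)) _ h) <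
      ee b (WellFounded.min (wellFounded_lt (α := Ω)) _ h)) then 1 else -1
  else 1

open Classical in
theorem sg_of_diff {a b z : Ω} (hza : z < a) (hzb : z < b) (heq : ∀ y < z, ee a y = ee b y)
    (hne : ee a z ≠ ee b z) : sg a b = if (a < b ↔ ee a z < ee b z) then 1 else -1 := by
  have hmem : z ∈ dset a b := ⟨hza, hzb, hne⟩
  have h : (dset a b).Nonempty := ⟨z, hmem⟩
  have hz : WellFounded.min (wellFounded_lt (α := Ω)) _ h = z := by
    rcases lt_trichotomy (WellFounded.min (wellFounded_lt (α := Ω)) _ h) z with h1 | h1 | h1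
    · exact absurd (heq _ h1) (WellFounded.min_mem (wellFounded_lt (α := Ω)) _ h).2.2
    · exact h1
    · exact absurd h1 (WellFounded.not_lt_min (wellFounded_lt (α := Ω)) _ hmem)
  unfold sg
  rw [dif_pos h, hz]

theorem sg_of_nodiff {a b : Ω} (h : ∀ z, z < a → z < b → ee a z = ee b z) : sg a b = 1 := by
  unfold sg
  rw [dif_neg]
  rintro ⟨z, h1, h2, h3⟩
  exact h3 (h z h1 h2)

theorem exists_first_diff {a b z : Ω} (hza : z < a) (hzb : z < b) (hne : ee a z ≠ ee b z) :
    ∃ w ≤ z, w < a ∧ w < b ∧ (∀ y < w, ee a y = ee b y) ∧ ee a w ≠ ee b w := by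
  have h : (dset a b).Nonempty := ⟨z, hza, hzb, hne⟩
  have h1 := WellFounded.min_mem (wellFounded_lt (α := Ω)) _ h
  refine ⟨WellFounded.min (wellFounded_lt (α := Ω)) _ h, ?_, h1.1, h1.2.1, ?_, h1.2.2⟩
  · exact not_lt.1 (WellFounded.not_lt_min (wellFounded_lt (α := Ω)) (dset a b)
      ⟨hza, hzb, hne⟩)
  · intro y hy
    by_contra hcon
    exact WellFounded.not_lt_min (wellFounded_lt (α := Ω)) (dset a b)
      ⟨hy.trans h1.1, hy.trans h1.2.1, hcon⟩ hy

theorem sg_symm (a b : Ω) : sg a b = sg b a := by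
  by_cases h : ∃ z, z < a ∧ z < b ∧ ee a z ≠ ee b z
  · obtain ⟨z, hza, hzb, hne⟩ := h
    obtain ⟨w, -, hwa, hwb, heq, hne⟩ := exists_first_diff hza hzb hne
    rw [sg_of_diff hwa hwb heq hne, sg_of_diff hwb hwa (fun y hy => (heq y hy).symm) hne.symm]
    have hab : a ≠ b := by rintro rfl; exact hne rfl
    congr 1
    rw [eq_iff_iff]
    have h1 : b < a ↔ ¬ a < b := by
      rw [not_lt]; exact ⟨le_of_lt, fun h => lt_of_le_of_ne h hab.symm⟩
    have h2 : ee b w < ee a w ↔ ¬ ee a w < ee b w := by omega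
    rw [h1, h2]
    tauto
  · push Not at h
    rw [sg_of_nodiff h, sg_of_nodiff (fun z h1 h2 => (h z h2 h1).symm)]

theorem abs_sg_le (a b : Ω) : |sg a b| ≤ 1 := by
  unfold sg
  split_ifs <;> simp

/-- Transfer of signs: the sign only depends on the data `≤ x` if there is a difference there, or
if everything relevant is `≤ x`. -/
theorem sg_congr {a b a' b' x : Ω} (hlt : ∀ z ≤ x, ((z < a ∧ z < b) ↔ (z < a' ∧ z < b')))
    (hval : ∀ z ≤ x, z < a → z < b → ee a z = ee a' z ∧ ee b z = ee b' z)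
    (hord : a < b ↔ a' < b')
    (hD : (∃ z ≤ x, z < a ∧ z < b ∧ ee a z ≠ ee b z) ∨
      ((∀ z, z < a → z < b → z ≤ x) ∧ (∀ z, z < a' → z < b' → z ≤ x))) :
    sg a b = sg a' b' := by
  by_cases h : ∃ z ≤ x, z < a ∧ z < b ∧ ee a z ≠ ee b z
  · obtain ⟨z, hzx, hza, hzb, hne⟩ := h
    obtain ⟨w, hwz, hwa, hwb, heq, hne⟩ := exists_first_diff hza hzb hne
    have hwx := hwz.trans hzx
    have hw' := (hlt w hwx).1 ⟨hwa, hwb⟩
    have hwv := hval w hwx hwa hwb
    rw [sg_of_diff hwa hwb heq hne, sg_of_diff hw'.1 hw'.2 ?_ ?_, hwv.1, hwv.2]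
    · congr 1
      rw [hord]
    · intro y hy
      have hv := hval y (hy.le.trans hwx) (hy.trans hwa) (hy.trans hwb)
      rw [← hv.1, ← hv.2]
      exact heq y hy
    · rw [← hwv.1, ← hwv.2]; exact hne
  · rcases hD with h1 | ⟨h1, h2⟩
    · exact absurd h1 h
    · push Not at h
      rw [sg_of_nodiff (fun z hza hzb => h z (h1 z hza hzb) hza hzb), sg_of_nodiff]
      intro z hza hzb
      have hzx := h2 z hza hzb
      have hz := (hlt z hzx).2 ⟨hza, hzb⟩
      have hv := hval z hzx hz.1 hz.2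
      rw [← hv.1, ← hv.2]
      exact h z hzx hz.1 hz.2

end Pool.Agent.Lib.MP_7cf0e7_an
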