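import Mathlib

/-!
# Sums over sign cubes and the kernel `a0`
-/

set_option autoImplicit false

namespace Pool.Agent.Lib.MP_7cf0e7_an

variable {Ω : Type} [DecidableEq Ω]

/-- The sign attached to `j` by the set `P`. -/
def sgn (P : Finset Ω) (j : Ω) : ℝ := if j ∈ P then 1 else -1

theorem sgn_mul_self (P : Finset Ω) (j : Ω) : sgn P j * sgn P j = 1 := by
  unfold sgn; split_ifs <;> norm_num

theorem sgn_sq (P : Finset Ω) (j : Ω) : sgn P j ^ 2 = 1 := by
  rw [sq, sgn_mul_self]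

theorem abs_sgn (P : Finset Ω) (j : Ω) : |sgn P j| = 1 := by
  unfold sgn; split_ifs <;> norm_num

theorem sum_prod_sgn {R : Type*} [CommRing R] (F : Finset Ω) (h : Ω → ℝ → R) :
    ∑ P ∈ F.powerset, ∏ i ∈ F, h i (sgn P i) = ∏ i ∈ F, (h i 1 + h i (-1)) := by
  rw [Finset.prod_add]
  apply Finset.sum_congr rfl
  intro P hP
  rw [Finset.mem_powerset] at hP
  rw [← Finset.prod_sdiff hP, mul_comm]
  congr 1
  · apply Finset.prod_congr rfl
    intro i hi
    simp [sgn, hi]
  · apply Finset.prod_congr rfl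
    intro i hi
    simp only [Finset.mem_sdiff] at hi
    simp [sgn, hi.2]

theorem sum_sgn_mul {F : Finset Ω} {i j : Ω} (hi : i ∈ F) (hj : j ∈ F) :
    ∑ P ∈ F.powerset, sgn P i * sgn P j = if i = j then (2 : ℝ) ^ F.card else 0 := by
  split_ifs with h
  · subst h
    simp [sgn_mul_self]
  · have h1 : ∀ P ∈ F.powerset, sgn P i * sgn P j =
        ∏ k ∈ F, (fun (k : Ω) (s : ℝ) => (if k = i then s else 1) * (if k = j then s else 1))
          k (sgn P k) := by
      intro P _
      rw [Finset.prod_mul_distrib]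
      congr 1
      · rw [Finset.prod_ite_eq' F i (fun k => sgn P k), if_pos hi]
      · rw [Finset.prod_ite_eq' F j (fun k => sgn P k), if_pos hj]
    rw [Finset.sum_congr rfl h1, sum_prod_sgn F
      (fun (k : Ω) (s : ℝ) => (if k = i then s else 1) * (if k = j then s else 1))]
    apply Finset.prod_eq_zero hi
    simp [h]

/-- The weights. -/
noncomputable def lam (n : ℕ) : ℝ := (√(√(n : ℝ)))⁻¹

theorem lam_nonneg (n : ℕ) : 0 ≤ lam n := by unfold lam; positivity

theorem lam_one : lam 1 = 1 := by simp [lam]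

theorem lam_sq (n : ℕ) : lam n ^ 2 = (√(n : ℝ))⁻¹ := by
  unfold lam
  rw [inv_pow, Real.sq_sqrt (Real.sqrt_nonneg _)]

theorem lam_pos {n : ℕ} (hn : 0 < n) : 0 < lam n := by
  unfold lam; positivity

theorem lam_bound {m n c : ℕ} (hm : c ≤ m) (hn : c ≤ n) : (lam m * lam n) ^ 2 * c ≤ 1 := by
  rcases Nat.eq_zero_or_pos c with rfl | hc
  · simp
  have hm0 : (0 : ℝ) < m := by exact_mod_cast lt_of_lt_of_le hc hm
  have hn0 : (0 : ℝ) < n := by exact_mod_cast lt_of_lt_of_le hc hn
  rw [mul_pow, lam_sq, lam_sq]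
  have h1 : (c : ℝ) ≤ √m * √n := by
    have h2 : √(c : ℝ) * √(c : ℝ) = c := Real.mul_self_sqrt (Nat.cast_nonneg c)
    rw [← h2]
    apply mul_le_mul (Real.sqrt_le_sqrt (by exact_mod_cast hm))
      (Real.sqrt_le_sqrt (by exact_mod_cast hn)) (Real.sqrt_nonneg _) (Real.sqrt_nonneg _)
  have h3 : 0 < √(m : ℝ) * √(n : ℝ) := mul_pos (Real.sqrt_pos.2 hm0) (Real.sqrt_pos.2 hn0)
  rw [← mul_inv, inv_mul_eq_div, div_le_one h3]
  exact h1

/-- The general kernel. -/
noncomputable def ak (F P G Q : Finset Ω) (m n : ℕ) : ℝ :=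
  (∏ j ∈ F ∩ G, (1 + Complex.I * ((lam m * lam n * (sgn P j * sgn Q j) : ℝ) : ℂ))).im

theorem ak_symm (F P G Q : Finset Ω) (m n : ℕ) : ak F P G Q m n = ak G Q F P n m := by
  unfold ak
  rw [Finset.inter_comm]
  congr 1
  apply Finset.prod_congr rfl
  intro j _
  rw [mul_comm (lam m), mul_comm (sgn P j)]

theorem ak_bound (F P G Q : Finset Ω) : |ak F P G Q F.card G.card| ≤ 2 := by
  unfold ak
  set c := lam F.card * lam G.card with hc
  have h1 : ∀ j : Ω, ‖(1 + Complex.I * ((c * (sgn P j * sgn Q j) : ℝ) : ℂ))‖ ^ 2 = 1 + c ^ 2 := by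
    intro j
    rw [← Complex.normSq_eq_norm_sq, Complex.normSq_apply]
    have h2 : (sgn P j * sgn Q j) ^ 2 = 1 := by rw [mul_pow, sgn_sq, sgn_sq, one_mul]
    simp
    nlinarith [h2]
  have h2 : ‖∏ j ∈ F ∩ G, (1 + Complex.I * ((c * (sgn P j * sgn Q j) : ℝ) : ℂ))‖ ^ 2 =
      (1 + c ^ 2) ^ (F ∩ G).card := by
    rw [norm_prod, ← Finset.prod_pow, Finset.prod_congr rfl (fun j _ => h1 j),
      Finset.prod_const]
  have h3 : (1 + c ^ 2) ^ (F ∩ G).card ≤ 4 := by
    have hle : (1 + c ^ 2) ≤ Real.exp (c ^ 2) := by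
      have := Real.add_one_le_exp (c ^ 2); linarith
    calc (1 + c ^ 2) ^ (F ∩ G).card ≤ (Real.exp (c ^ 2)) ^ (F ∩ G).card :=
          pow_le_pow_left₀ (by positivity) hle _
      _ = Real.exp (c ^ 2 * (F ∩ G).card) := by
          rw [← Real.exp_nat_mul, mul_comm]
      _ ≤ Real.exp 1 := by
          apply Real.exp_le_exp.2
          exact lam_bound (Finset.card_le_card Finset.inter_subset_left)
            (Finset.card_le_card Finset.inter_subset_right)
      _ ≤ 4 := by
          have := Real.exp_one_lt_d9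
          linarith
  have h4 := Complex.abs_im_le_norm
    (∏ j ∈ F ∩ G, (1 + Complex.I * ((c * (sgn P j * sgn Q j) : ℝ) : ℂ)))
  have h5 : ‖∏ j ∈ F ∩ G, (1 + Complex.I * ((c * (sgn P j * sgn Q j) : ℝ) : ℂ))‖ ≤ 2 := by
    apply le_of_sq_le_sq _ (by norm_num)
    rw [h2]
    linarith
  linarith

theorem sum_ak {F : Finset Ω} {j : Ω} (hj : j ∈ F) (G Q : Finset Ω) (m n : ℕ) :
    ∑ P ∈ F.powerset, sgn P j * ak F P G Q m n =
      if j ∈ G then (2 : ℝ) ^ F.card * (lam m * lam n * sgn Q j) else 0 := by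
  set c := lam m * lam n with hc
  let h : Ω → ℝ → ℂ := fun i s =>
    (if i ∈ G then (1 + Complex.I * ((c * (s * sgn Q i) : ℝ) : ℂ)) else 1) *
      (if i = j then (s : ℂ) else 1)
  have h1 : ∀ P ∈ F.powerset, sgn P j * ak F P G Q m n = (∏ i ∈ F, h i (sgn P i)).im := by
    intro P _
    unfold ak
    rw [← Complex.im_ofReal_mul]
    congr 1
    simp only [h]
    rw [Finset.prod_mul_distrib, Finset.prod_ite_mem,
      Finset.prod_ite_eq' F j (fun k => ((sgn P k : ℝ) : ℂ)), if_pos hj, mul_comm]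
  rw [Finset.sum_congr rfl h1, ← Complex.im_sum, sum_prod_sgn F h]
  have h2 : ∏ i ∈ F, (h i 1 + h i (-1)) =
      ∏ i ∈ F, (if i = j then (if j ∈ G then 2 * (Complex.I * ((c * sgn Q j : ℝ) : ℂ)) else 0)
        else 2) := by
    apply Finset.prod_congr rfl
    intro i _
    simp only [h]
    by_cases hij : i = j
    · subst hij
      by_cases hG : i ∈ G
      · simp only [hG, if_true]
        push_cast
        ring
      · simp [hG]
    · by_cases hG : i ∈ G
      · simp only [hG, if_true, hij, if_false]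
        push_cast
        ring
      · simp only [hG, if_false, hij]
        ring
  rw [h2, ← Finset.mul_prod_erase F _ hj, if_pos rfl]
  have h3 : ∏ i ∈ F.erase j, (if i = j then (if j ∈ G then 2 * (Complex.I * ((c * sgn Q j : ℝ) : ℂ))
      else 0) else (2 : ℂ)) = 2 ^ (F.card - 1) := by
    rw [Finset.prod_congr rfl (g := fun _ => (2 : ℂ)), Finset.prod_const,
      Finset.card_erase_of_mem hj]
    intro i hi
    rw [if_neg (Finset.ne_of_mem_erase hi)]
  rw [h3]
  have hcard : F.card = (F.card - 1) + 1 := by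
    have := Finset.card_pos.2 ⟨j, hj⟩
    omega
  by_cases hG : j ∈ G
  · simp only [hG, if_true]
    have h4 : 2 * (Complex.I * ((c * sgn Q j : ℝ) : ℂ)) * 2 ^ (F.card - 1) =
        (((2 : ℝ) ^ F.card * (c * sgn Q j) : ℝ) : ℂ) * Complex.I := by
      conv_rhs => rw [hcard]
      push_cast
      ring
    rw [h4, Complex.im_ofReal_mul]
    simp
  · simp [hG]

end Pool.Agent.Lib.MP_7cf0e7_an
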