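import Pool.Agent.Lib.MP_7cf0e7_an.Bilin

/-!
# Data extracted from an isotropic subspace with nontrivial tails
-/

set_option autoImplicit false

namespace Pool.Agent.Lib.MP_7cf0e7_an

open scoped InnerProductSpace

theorem fin_enum {α : Type*} [DecidableEq α] [Nonempty α] (s : Finset α) :
    ∃ κ : ℕ → α, (Finset.range s.card).image κ = s ∧ Set.InjOn κ (Finset.range s.card : Set ℕ) := by
  classical
  let κ : ℕ → α := fun i => if h : i < s.card then (s.equivFin.symm ⟨i, h⟩ : α) else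
    Classical.arbitrary α
  have hκ : ∀ i (h : i < s.card), κ i = (s.equivFin.symm ⟨i, h⟩ : α) := fun i h => by
    simp only [κ, dif_pos h]
  refine ⟨κ, ?_, ?_⟩
  · ext a
    simp only [Finset.mem_image, Finset.mem_range]
    constructor
    · rintro ⟨i, hi, rfl⟩
      rw [hκ i hi]
      exact (s.equivFin.symm ⟨i, hi⟩).2
    · intro ha
      refine ⟨(s.equivFin ⟨a, ha⟩).1, (s.equivFin ⟨a, ha⟩).2, ?_⟩
      rw [hκ _ (s.equivFin ⟨a, ha⟩).2]
      simp
  · intro i hi j hj hij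
    simp only [Finset.coe_range, Set.mem_Iio] at hi hj
    rw [hκ i hi, hκ j hj] at hij
    have := s.equivFin.symm.injective (Subtype.ext hij)
    simpa using this

variable {Ω : Type} [LinearOrder Ω] [OrderBot Ω] [hΩ : IsOm Ω]

omit hΩ in
theorem exists_max_lt {d : Ω} (hd : ⊥ < d) {D : Set Ω} (hD : D.Finite) (hDd : ∀ z ∈ D, z < d) :
    ∃ r < d, ∀ z ∈ D, z ≤ r := by
  refine ⟨hD.toFinset.sup id, ?_, ?_⟩
  · rw [Finset.sup_lt_iff hd]
    intro z hz
    exact hDd z (hD.mem_toFinset.1 hz)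
  · intro z hz
    exact Finset.le_sup (f := id) (hD.mem_toFinset.2 hz)

instance : Nonempty (Gen Ω) := ⟨⟨∅, ⟨∅, by simp⟩⟩⟩

open Classical in
theorem exists_data (U : Submodule ℝ (L1 (Gen Ω)))
    (hA : ∀ d0 : Ω, ∃ x ∈ U, ∃ F : Finset Ω, d0 ≤ mx F ∧ TT (blk F x) ≠ 0) (d : Ω) (hd : ⊥ < d) :
    ∃ (x : L1 (Gen Ω)) (n N : ℕ) (κ : ℕ → Gen Ω) (c : ℕ → ℚ) (s0 : ℕ) (r : Ω),
      x ∈ U ∧ ‖x‖ ≤ 1 ∧ 0 < N ∧
      ‖x - ∑ s ∈ Finset.range n, (c s : ℝ) • bp (κ s)‖ ≤ 1 / (100 * (N : ℝ) ^ 2) ∧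
      s0 < n ∧ d ≤ mx (κ s0).1 ∧
      1 / (N : ℝ) ≤ ‖∑ s ∈ (Finset.range n).filter (fun s => d ≤ mx (κ s).1 ∧
        ∀ z < d, ee (mx (κ s).1) z = ee (mx (κ s0).1) z), (c s : ℝ) • Phi (bp (κ s))‖ ∧
      r < d ∧ (∀ s < n, ∀ j ∈ (κ s).1, j < d → j ≤ r) ∧
      (∀ s < n, ∀ t < n, d ≤ mx (κ s).1 → d ≤ mx (κ t).1 →
        ∀ z < d, ee (mx (κ s).1) z ≠ ee (mx (κ t).1) z → z ≤ r) := by
  obtain ⟨x0, hx0, F0, hF0, hT⟩ := hA d
  set x : L1 (Gen Ω) := (‖x0‖ + 1)⁻¹ • x0 with hx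
  have hpos : 0 < ‖x0‖ + 1 := by positivity
  have hxU : x ∈ U := U.smul_mem _ hx0
  have hxn : ‖x‖ ≤ 1 := by
    rw [hx, norm_smul, Real.norm_eq_abs, abs_of_pos (inv_pos.2 hpos), inv_mul_le_iff₀ hpos]
    linarith
  have hxT : TT (blk F0 x) ≠ 0 := by
    rw [hx, map_smul, map_smul]
    exact smul_ne_zero (inv_pos.2 hpos).ne' hT
  set S : Set (Finset Ω) := {F | d ≤ mx F ∧ ∀ z < d, ee (mx F) z = ee (mx F0) z} with hS
  have hF0S : F0 ∈ S := ⟨hF0, fun _ _ => rfl⟩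
  have hg : 0 < ‖Phi (chi S x)‖ := norm_pos_iff.2 (Phi_ne hF0S hxT)
  obtain ⟨N, hN⟩ := exists_nat_gt (2 / ‖Phi (chi S x)‖)
  have hNpos : (0 : ℝ) < N := lt_of_le_of_lt (by positivity) hN
  have hN0 : 0 < N := by exact_mod_cast hNpos
  have hN1 : (1 : ℝ) ≤ N := by exact_mod_cast hN0
  have hgN : 2 / (N : ℝ) ≤ ‖Phi (chi S x)‖ := by
    rw [div_lt_iff₀ hg] at hN
    rw [div_le_iff₀ hNpos]
    linarith
  obtain ⟨s, c, hsc⟩ := exists_rat_approx x
    (show (0 : ℝ) < 1 / (100 * (N : ℝ) ^ 2) by positivity)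
  obtain ⟨κ, hκ1, hκ2⟩ := fin_enum s
  set n := s.card with hn
  have hsum : ∑ i ∈ Finset.range n, ((c (κ i) : ℚ) : ℝ) • bp (κ i) = ∑ i ∈ s, (c i : ℝ) • bp i := by
    conv_rhs => rw [← hκ1]
    rw [Finset.sum_image (fun a ha b hb h => hκ2 ha hb h)]
  rw [← hsum] at hsc
  -- the class sum
  have hchi : Phi (chi S (∑ i ∈ Finset.range n, ((c (κ i) : ℚ) : ℝ) • bp (κ i))) =
      ∑ i ∈ (Finset.range n).filter (fun i => (κ i).1 ∈ S), ((c (κ i) : ℚ) : ℝ) •
        Phi (bp (κ i)) := by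
    rw [map_sum, map_sum, Finset.sum_filter]
    apply Finset.sum_congr rfl
    intro i _
    rw [map_smul, map_smul, chi_bp]
    split_ifs
    · rfl
    · rw [map_zero, smul_zero]
  have hclass : 1 / (N : ℝ) ≤ ‖∑ i ∈ (Finset.range n).filter (fun i => (κ i).1 ∈ S),
      ((c (κ i) : ℚ) : ℝ) • Phi (bp (κ i))‖ := by
    rw [← hchi]
    have h1 : ‖Phi (chi S x) - Phi (chi S (∑ i ∈ Finset.range n,
        ((c (κ i) : ℚ) : ℝ) • bp (κ i)))‖ ≤ 1 / (100 * (N : ℝ) ^ 2) := by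
      rw [← map_sub, ← map_sub]
      exact (norm_Phi_le _).trans ((norm_chi_le _ _).trans hsc)
    have h2 : 1 / (100 * (N : ℝ) ^ 2) ≤ 1 / N := by
      apply one_div_le_one_div_of_le hNpos
      nlinarith
    have h3 := norm_sub_norm_le (Phi (chi S x)) (Phi (chi S (∑ i ∈ Finset.range n,
        ((c (κ i) : ℚ) : ℝ) • bp (κ i))))
    have h4 : 2 / (N : ℝ) = 1 / N + 1 / N := by ring
    linarith
  have hne : ((Finset.range n).filter (fun i => (κ i).1 ∈ S)).Nonempty := by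
    by_contra hcon
    rw [Finset.not_nonempty_iff_eq_empty] at hcon
    rw [hcon, Finset.sum_empty, norm_zero] at hclass
    have : 0 < 1 / (N : ℝ) := by positivity
    linarith
  obtain ⟨s0, hs0⟩ := hne
  rw [Finset.mem_filter, Finset.mem_range] at hs0
  obtain ⟨hs0n, hs0S⟩ := hs0
  have hfilter : (Finset.range n).filter (fun s => d ≤ mx (κ s).1 ∧
        ∀ z < d, ee (mx (κ s).1) z = ee (mx (κ s0).1) z) =
      (Finset.range n).filter (fun i => (κ i).1 ∈ S) := by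
    apply Finset.filter_congr
    intro i _
    constructor
    · rintro ⟨h1, h2⟩
      exact ⟨h1, fun z hz => by rw [h2 z hz, hs0S.2 z hz]⟩
    · rintro ⟨h1, h2⟩
      exact ⟨h1, fun z hz => by rw [h2 z hz, hs0S.2 z hz]⟩
  -- the bound
  let D : Set Ω := (⋃ i ∈ Finset.range n, {z | z ∈ (κ i).1 ∧ z < d}) ∪
    (⋃ i ∈ Finset.range n, ⋃ j ∈ Finset.range n, {z | (d ≤ mx (κ i).1 ∧ d ≤ mx (κ j).1 ∧ z < d) ∧
      ee (mx (κ i).1) z ≠ ee (mx (κ j).1) z})
  have hDfin : D.Finite := by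
    apply Set.Finite.union
    · apply Set.Finite.biUnion (Finset.finite_toSet _)
      intro i _
      apply (Finset.finite_toSet (κ i).1).subset
      intro z hz
      exact hz.1
    · apply Set.Finite.biUnion (Finset.finite_toSet _)
      intro i _
      apply Set.Finite.biUnion (Finset.finite_toSet _)
      intro j _
      apply (ee_coh (mx (κ i).1) (mx (κ j).1)).subset
      rintro z ⟨⟨h1, h2, h3⟩, h4⟩
      exact ⟨lt_of_lt_of_le h3 h1, lt_of_lt_of_le h3 h2, h4⟩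
  have hDd : ∀ z ∈ D, z < d := by
    intro z hz
    rcases hz with hz | hz
    · simp only [Set.mem_iUnion] at hz
      obtain ⟨i, _, hz⟩ := hz
      exact hz.2
    · simp only [Set.mem_iUnion] at hz
      obtain ⟨i, _, j, _, hz⟩ := hz
      exact hz.1.2.2
  obtain ⟨r, hrd, hr⟩ := exists_max_lt hd hDfin hDd
  refine ⟨x, n, N, κ, fun i => c (κ i), s0, r, hxU, hxn, hN0, hsc, hs0n, hs0S.1, ?_, hrd, ?_, ?_⟩
  · rw [hfilter]; exact hclass
  · intro i hi j hj hjd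
    apply hr
    left
    simp only [Set.mem_iUnion]
    exact ⟨i, Finset.mem_range.2 hi, hj, hjd⟩
  · intro i hi j hj h1 h2 z hz hne
    apply hr
    right
    simp only [Set.mem_iUnion]
    exact ⟨i, Finset.mem_range.2 hi, j, Finset.mem_range.2 hj, ⟨h1, h2, hz⟩, hne⟩

open Classical in
theorem pos_classes {E L : Type*} [NormedAddCommGroup E] [InnerProductSpace ℝ E] (s : Finset ℕ)
    (lab : ℕ → L) (y : ℕ → E) (l0 : L) :
    ‖∑ i ∈ s.filter (fun i => lab i = l0), y i‖ ^ 2 ≤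
      ∑ i ∈ s, ∑ j ∈ s, if lab i = lab j then ⟪y i, y j⟫_ℝ else 0 := by
  have h1 : ∑ i ∈ s, ∑ j ∈ s, (if lab i = lab j then ⟪y i, y j⟫_ℝ else 0) =
      ∑ l ∈ s.image lab, ‖∑ i ∈ s.filter (fun i => lab i = l), y i‖ ^ 2 := by
    rw [← Finset.sum_fiberwise_of_maps_to (g := lab) (t := s.image lab)
      (fun i hi => Finset.mem_image_of_mem lab hi)]
    apply Finset.sum_congr rfl
    intro l _
    rw [← real_inner_self_eq_norm_sq, sum_inner]
    apply Finset.sum_congr rfl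
    intro i hi
    rw [Finset.mem_filter] at hi
    rw [inner_sum, Finset.sum_filter]
    apply Finset.sum_congr rfl
    intro j _
    rw [hi.2]
    simp only [eq_comm]
  rw [h1]
  by_cases h : l0 ∈ s.image lab
  · exact Finset.single_le_sum (f := fun l => ‖∑ i ∈ s.filter (fun i => lab i = l), y i‖ ^ 2)
      (fun _ _ => sq_nonneg _) h
  · have : s.filter (fun i => lab i = l0) = ∅ := by
      rw [Finset.filter_eq_empty_iff]
      intro i hi hl
      exact h (Finset.mem_image.2 ⟨i, hi, hl⟩)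
    rw [this, Finset.sum_empty, norm_zero]
    simp only [ne_eq, OfNat.ofNat_ne_zero, not_false_eq_true, zero_pow]
    exact Finset.sum_nonneg fun _ _ => sq_nonneg _

end Pool.Agent.Lib.MP_7cf0e7_an
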