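import Pool.Agent.Lib.MP_7cf0e7_an.L1

/-!
# An injective operator from `ℓ¹(ι)` to a separable Hilbert space, for `|ι| ≤ 𝔠`
-/

set_option autoImplicit false

namespace Pool.Agent.Lib.MP_7cf0e7_an

open scoped ENNReal

/-- The separable Hilbert space. -/
abbrev HH : Type := lp (fun _ : ℕ × Finset ℕ => ℝ) 2

theorem exists_denseSeq_HH : ∃ d : ℕ → HH, DenseRange d := by
  classical
  have h1 : (Set.univ : Set HH) ⊆
      closure (Submodule.span ℝ (Set.range fun i : ℕ × Finset ℕ =>
        (lp.single 2 i (1 : ℝ) : HH)) : Set HH) := by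
    intro x _
    have hx := lp.hasSum_single (p := 2) (by norm_num) x
    apply mem_closure_of_tendsto hx
    filter_upwards with s
    apply Submodule.sum_mem
    intro i _
    have : (lp.single 2 i (x i) : HH) = x i • (lp.single 2 i (1 : ℝ) : HH) := by
      rw [← lp.single_smul]; simp
    rw [this]
    exact Submodule.smul_mem _ _ (Submodule.subset_span ⟨i, rfl⟩)
  have h2 : TopologicalSpace.IsSeparable (Set.univ : Set HH) :=
    ((Set.countable_range fun i : ℕ × Finset ℕ =>
        (lp.single 2 i (1 : ℝ) : HH)).isSeparable.span (R := ℝ)).closure.mono h1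
  have h3 : TopologicalSpace.SeparableSpace HH := TopologicalSpace.isSeparable_univ_iff.1 h2
  exact ⟨TopologicalSpace.denseSeq HH, TopologicalSpace.denseRange_denseSeq HH⟩

/-- The weights. -/
noncomputable def wt (i : ℕ × Finset ℕ) : ℝ := (1 / 2) ^ (Encodable.encode i) / 2

theorem wt_pos (i : ℕ × Finset ℕ) : 0 < wt i := by unfold wt; positivity

theorem summable_wt : Summable wt := by
  have := (summable_geometric_two_encode (ι := ℕ × Finset ℕ)).div_const 2
  exact this

theorem wt_sum_le (s : Finset (ℕ × Finset ℕ)) : ∑ i ∈ s, wt i ≤ 1 := by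
  classical
  have h1 : ∑ i ∈ s, wt i = ∑ n ∈ s.image Encodable.encode, ((1 : ℝ) / 2) ^ n / 2 := by
    rw [Finset.sum_image (fun a _ b _ h => Encodable.encode_injective h)]
    rfl
  rw [h1]
  have h2 : Summable fun n : ℕ => ((1 : ℝ) / 2) ^ n / 2 := summable_geometric_two.div_const 2
  refine (h2.sum_le_tsum _ (fun n _ => by positivity)).trans ?_
  rw [tsum_div_const, tsum_geometric_two]
  norm_num

/-- Prefixes. -/
def pre (n : ℕ) (x : ℕ → Bool) : Finset ℕ := (Finset.range n).filter (fun i => x i = true)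

theorem pre_eq_imp {n : ℕ} {x y : ℕ → Bool} (h : pre n x = pre n y) {i : ℕ} (hi : i < n) :
    x i = y i := by
  have h1 : i ∈ pre n x ↔ i ∈ pre n y := by rw [h]
  simp only [pre, Finset.mem_filter, Finset.mem_range, hi, true_and] at h1
  cases hx : x i <;> cases hy : y i <;> simp_all

/-- Cylinder indicators. -/
noncomputable def cyl (i : ℕ × Finset ℕ) (x : ℕ → Bool) : ℝ := if pre i.1 x = i.2 then 1 else 0

theorem abs_cyl_le (i : ℕ × Finset ℕ) (x : ℕ → Bool) : |cyl i x| ≤ 1 := by
  unfold cyl; split_ifs <;> simp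

theorem memlp_cyl (x : ℕ → Bool) :
    Memℓp (fun i : ℕ × Finset ℕ => wt i * cyl i x) 2 := by
  apply memℓp_gen' (C := 1)
  intro s
  refine le_trans (Finset.sum_le_sum (g := wt) ?_) (wt_sum_le s)
  intro i _
  have h1 : ‖wt i * cyl i x‖ ≤ wt i := by
    rw [Real.norm_eq_abs, abs_mul, abs_of_pos (wt_pos i)]
    have := abs_cyl_le i x
    nlinarith [wt_pos i]
  have h2 : wt i ≤ 1 := by
    have := wt_sum_le {i}
    simpa using this
  have h3 : (2 : ℝ≥0∞).toReal = (2 : ℕ) := by simp
  rw [h3, Real.rpow_natCast]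
  have h0 := norm_nonneg (wt i * cyl i x)
  nlinarith [wt_pos i]

/-- The vector attached to a point of Cantor space. -/
noncomputable def hvec (x : ℕ → Bool) : HH := ⟨fun i => wt i * cyl i x, memlp_cyl x⟩

theorem hvec_apply (x : ℕ → Bool) (i : ℕ × Finset ℕ) : hvec x i = wt i * cyl i x := rfl

theorem norm_hvec_le (x : ℕ → Bool) : ‖hvec x‖ ≤ 1 := by
  apply lp.norm_le_of_forall_sum_le (by norm_num) zero_le_one
  intro s
  have h3 : (2 : ℝ≥0∞).toReal = (2 : ℕ) := by simp
  simp only [h3, Real.rpow_natCast, one_pow]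
  refine le_trans (Finset.sum_le_sum (g := wt) ?_) (wt_sum_le s)
  intro i _
  rw [hvec_apply]
  have h1 : ‖wt i * cyl i x‖ ≤ wt i := by
    rw [Real.norm_eq_abs, abs_mul, abs_of_pos (wt_pos i)]
    have := abs_cyl_le i x
    nlinarith [wt_pos i]
  have h2 : wt i ≤ 1 := by
    have := wt_sum_le {i}
    simpa using this
  have h0 := norm_nonneg (wt i * cyl i x)
  nlinarith [wt_pos i]

theorem exists_J {ι : Type} [DecidableEq ι] (hι : Cardinal.mk ι ≤ Cardinal.continuum) :
    ∃ J : L1 ι →L[ℝ] HH, (∀ i, ‖J (bp i)‖ ≤ 1) ∧ (∀ x, J x = 0 → x = 0) := by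
  have hz : ∃ z : ι → (ℕ → Bool), Function.Injective z := by
    have h1 : Cardinal.mk (ℕ → Bool) = Cardinal.continuum := by
      rw [← Cardinal.power_def, Cardinal.mk_bool, Cardinal.mk_nat, Cardinal.two_power_aleph0]
    rw [← h1, Cardinal.le_def] at hι
    obtain ⟨f⟩ := hι
    exact ⟨f, f.injective⟩
  obtain ⟨z, hz⟩ := hz
  refine ⟨l1ext (fun i => hvec (z i)) 1 (fun i => norm_hvec_le _), fun i => ?_, fun x hx => ?_⟩
  · rw [l1ext_bp]; exact norm_hvec_le _
  set J : L1 ι →L[ℝ] HH := l1ext (fun i => hvec (z i)) 1 (fun i => norm_hvec_le _) with hJ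
  -- the cylinder functionals
  let X : ℕ × Finset ℕ → (L1 ι →L[ℝ] ℝ) := fun i =>
    l1ext (fun k => cyl i (z k)) 1 (fun k => abs_cyl_le i (z k))
  have hX : ∀ i, X i x = 0 := by
    intro i
    have h1 : ((lp.evalCLM ℝ (fun _ : ℕ × Finset ℕ => ℝ) 2 i).comp J) x = (wt i • X i) x := by
      apply clm_apply_eq
      intro k
      rw [ContinuousLinearMap.comp_apply, hJ, l1ext_bp, smul_apply, l1ext_bp]
      rfl
    rw [ContinuousLinearMap.comp_apply, hx, map_zero, smul_apply,
      smul_eq_mul] at h1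
    rcases mul_eq_zero.1 h1.symm with h | h
    · exact absurd h (wt_pos i).ne'
    · exact h
  ext k0
  rw [lp.coeFn_zero, Pi.zero_apply]
  by_contra hne
  have hpos : 0 < |x k0| := abs_pos.2 hne
  have h := hasSum_bp x
  rw [HasSum, Metric.tendsto_nhds] at h
  have h1 := h (|x k0|) hpos
  have h2 : ∀ᶠ s : Finset ι in SummationFilter.unconditional ι |>.filter, k0 ∈ s := by
    simp only [SummationFilter.unconditional_filter]
    filter_upwards [Filter.eventually_ge_atTop {k0}] with s hs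
    exact hs (Finset.mem_singleton_self k0)
  obtain ⟨s, hs1, hs2⟩ := (h1.and h2).exists
  -- separate `k0` from the other elements of `s`
  have hN : ∃ N : ℕ, ∀ k ∈ s, k ≠ k0 → pre N (z k) ≠ pre N (z k0) := by
    have : ∀ k : ι, ∃ n, k ≠ k0 → z k n ≠ z k0 n := by
      intro k
      by_cases hk : k = k0
      · exact ⟨0, fun h => absurd hk h⟩
      · have : z k ≠ z k0 := fun h => hk (hz h)
        obtain ⟨n, hn⟩ := Function.ne_iff.1 this
        exact ⟨n, fun _ => hn⟩
    choose n hn using this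
    refine ⟨s.sup n + 1, fun k hk hne hpre => ?_⟩
    exact hn k hne (pre_eq_imp hpre (Nat.lt_succ_of_le (Finset.le_sup hk)))
  obtain ⟨N, hN⟩ := hN
  have h3 : X (N, pre N (z k0)) (∑ k ∈ s, x k • bp k) = x k0 := by
    rw [map_sum, Finset.sum_eq_single k0]
    · rw [map_smul, l1ext_bp]
      simp [cyl]
    · intro k hk hne
      rw [map_smul, l1ext_bp]
      simp [cyl, hN k hk hne]
    · intro h; exact absurd hs2 h
  have h4 : ‖X (N, pre N (z k0)) (∑ k ∈ s, x k • bp k - x)‖ ≤ 1 * ‖∑ k ∈ s, x k • bp k - x‖ :=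
    l1ext_norm_le _ _ _ _
  rw [map_sub, h3, hX, sub_zero, one_mul, Real.norm_eq_abs] at h4
  rw [dist_eq_norm] at hs1
  linarith

end Pool.Agent.Lib.MP_7cf0e7_an
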