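import Pool.Agent.Lib.MP_7cf0e7_an.Coherent
import Pool.Agent.Lib.MP_7cf0e7_an.Cube
import Pool.Agent.Lib.MP_7cf0e7_an.Sep

/-!
# The bilinear form on `ℓ¹` of the generators
-/

set_option autoImplicit false

namespace Pool.Agent.Lib.MP_7cf0e7_an

open scoped InnerProductSpace

variable {Ω : Type} [LinearOrder Ω] [OrderBot Ω] [hΩ : IsOm Ω]

/-- Generators: a finite set together with a subset of it (a sign vector). -/
abbrev Gen (Ω : Type) : Type := Σ F : Finset Ω, {P : Finset Ω // P ∈ F.powerset}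

theorem card_gen : Cardinal.mk (Gen Ω) ≤ Cardinal.continuum := by
  have h1 : Cardinal.mk (Finset Ω) ≤ Cardinal.continuum := by
    rw [Cardinal.mk_finset_of_infinite]
    exact hΩ.card
  have h2 : Cardinal.mk (Gen Ω) ≤ Cardinal.mk (Finset Ω × Finset Ω) := by
    refine Cardinal.mk_le_of_injective (f := fun k : Gen Ω => (k.1, k.2.1)) ?_
    rintro ⟨F, P, hP⟩ ⟨G, Q, hQ⟩ h
    simp only [Prod.mk.injEq] at h
    obtain ⟨rfl, rfl⟩ := h
    rfl
  refine h2.trans ?_
  rw [Cardinal.mk_prod]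
  simp only [Cardinal.lift_id]
  calc _ ≤ Cardinal.continuum * Cardinal.continuum := mul_le_mul' h1 h1
    _ = Cardinal.continuum := Cardinal.continuum_mul_self

/-- The injective operator into the Hilbert space. -/
noncomputable def JJ : L1 (Gen Ω) →L[ℝ] HH := (exists_J (card_gen (Ω := Ω))).choose

theorem norm_JJ_bp (k : Gen Ω) : ‖JJ (bp k)‖ ≤ 1 :=
  (exists_J (card_gen (Ω := Ω))).choose_spec.1 k

theorem JJ_inj {x : L1 (Gen Ω)} (h : JJ x = 0) : x = 0 :=
  (exists_J (card_gen (Ω := Ω))).choose_spec.2 x h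

/-- Largest element of a finite set (`⊥` if empty). -/
def mx (F : Finset Ω) : Ω := F.sup id

omit hΩ in
theorem mx_lt {F : Finset Ω} {d : Ω} (hd : ⊥ < d) : mx F < d ↔ ∀ j ∈ F, j < d := by
  unfold mx
  rw [Finset.sup_lt_iff hd]
  rfl

omit hΩ in
theorem le_mx {F : Finset Ω} {j : Ω} (hj : j ∈ F) : j ≤ mx F := Finset.le_sup (f := id) hj

/-- The Rademacher vectors. -/
noncomputable def RR (F : Finset Ω) (j : Ω) : L1 (Gen Ω) :=
  ∑ P : {P : Finset Ω // P ∈ F.powerset}, sgn P.1 j • bp (⟨F, P⟩ : Gen Ω)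

omit [OrderBot Ω] hΩ in
theorem norm_RR_le (F : Finset Ω) (j : Ω) : ‖RR F j‖ ≤ 2 ^ F.card := by
  unfold RR
  refine (norm_sum_le _ _).trans ?_
  have h1 : ∀ P ∈ (Finset.univ : Finset {P : Finset Ω // P ∈ F.powerset}),
      ‖sgn P.1 j • bp (⟨F, P⟩ : Gen Ω)‖ ≤ 1 := by
    intro P _
    rw [norm_smul, norm_bp, mul_one, Real.norm_eq_abs, abs_sgn]
  refine (Finset.sum_le_sum h1).trans ?_
  simp

/-- The operator killing the Rademacher vectors, on unit vectors. -/
noncomputable def tv (k : Gen Ω) : L1 (Gen Ω) :=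
  (1 / (1 + (k.1.card : ℝ))) • (bp k - (1 / 2 : ℝ) ^ k.1.card •
    ∑ j ∈ k.1, sgn k.2.1 j • RR k.1 j)

omit [OrderBot Ω] hΩ in
theorem norm_tv_le (k : Gen Ω) : ‖tv k‖ ≤ 1 := by
  unfold tv
  rw [norm_smul, Real.norm_eq_abs, abs_of_pos (by positivity)]
  have h1 : ‖bp k - (1 / 2 : ℝ) ^ k.1.card • ∑ j ∈ k.1, sgn k.2.1 j • RR k.1 j‖ ≤
      1 + (k.1.card : ℝ) := by
    refine (norm_sub_le _ _).trans ?_
    rw [norm_bp]
    gcongr
    rw [norm_smul, Real.norm_eq_abs, abs_of_pos (by positivity)]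
    have h2 : ‖∑ j ∈ k.1, sgn k.2.1 j • RR k.1 j‖ ≤ k.1.card * 2 ^ k.1.card := by
      refine (norm_sum_le _ _).trans ?_
      have : ∀ j ∈ k.1, ‖sgn k.2.1 j • RR k.1 j‖ ≤ 2 ^ k.1.card := by
        intro j _
        rw [norm_smul, Real.norm_eq_abs, abs_sgn, one_mul]
        exact norm_RR_le _ _
      refine (Finset.sum_le_sum this).trans ?_
      simp
    calc (1 / 2 : ℝ) ^ k.1.card * ‖∑ j ∈ k.1, sgn k.2.1 j • RR k.1 j‖
        ≤ (1 / 2 : ℝ) ^ k.1.card * (k.1.card * 2 ^ k.1.card) :=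
          mul_le_mul_of_nonneg_left h2 (by positivity)
      _ = k.1.card * ((1 / 2 : ℝ) * 2) ^ k.1.card := by rw [mul_pow]; ring
      _ = k.1.card := by norm_num
  have h3 : (0 : ℝ) < 1 + k.1.card := by positivity
  calc 1 / (1 + (k.1.card : ℝ)) * _ ≤ 1 / (1 + (k.1.card : ℝ)) * (1 + k.1.card) :=
        mul_le_mul_of_nonneg_left h1 (by positivity)
    _ = 1 := by field_simp

/-- The operator killing the Rademacher vectors. -/
noncomputable def TT : L1 (Gen Ω) →L[ℝ] L1 (Gen Ω) := l1ext tv 1 norm_tv_le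

omit [LinearOrder Ω] [OrderBot Ω] hΩ in
theorem sum_gen {F : Finset Ω} {E : Type*} [AddCommMonoid E] (f : Finset Ω → E) :
    ∑ P : {P : Finset Ω // P ∈ F.powerset}, f P.1 = ∑ P ∈ F.powerset, f P :=
  Finset.sum_coe_sort F.powerset f

omit [OrderBot Ω] hΩ in
theorem TT_RR {F : Finset Ω} {j : Ω} (hj : j ∈ F) : TT (RR F j) = 0 := by
  unfold RR
  rw [map_sum]
  have h1 : ∀ P ∈ (Finset.univ : Finset {P : Finset Ω // P ∈ F.powerset}),
      TT (sgn P.1 j • bp (⟨F, P⟩ : Gen Ω)) =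
        (1 / (1 + (F.card : ℝ))) • (sgn P.1 j • bp (⟨F, P⟩ : Gen Ω) -
          (1 / 2 : ℝ) ^ F.card • ∑ i ∈ F, (sgn P.1 j * sgn P.1 i) • RR F i) := by
    intro P _
    rw [map_smul]
    unfold TT
    rw [l1ext_bp]
    unfold tv
    rw [smul_comm, smul_sub, smul_comm (sgn P.1 j) ((1 / 2 : ℝ) ^ F.card)]
    congr 4
    rw [Finset.smul_sum]
    apply Finset.sum_congr rfl
    intro i _
    rw [smul_smul]
  rw [Finset.sum_congr rfl h1, ← Finset.smul_sum, Finset.sum_sub_distrib, ← Finset.smul_sum,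
    Finset.sum_comm]
  have h2 : ∀ i ∈ F, ∑ P : {P : Finset Ω // P ∈ F.powerset}, (sgn P.1 j * sgn P.1 i) • RR F i =
      (if i = j then (2 : ℝ) ^ F.card else 0) • RR F i := by
    intro i hi
    rw [← Finset.sum_smul, sum_gen (fun P => sgn P j * sgn P i), sum_sgn_mul hj hi]
    congr 1
    simp [eq_comm]
  rw [Finset.sum_congr rfl h2]
  have h3 : ∑ i ∈ F, (if i = j then (2 : ℝ) ^ F.card else 0) • RR F i =
      (2 : ℝ) ^ F.card • RR F j := by
    rw [Finset.sum_eq_single j]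
    · simp
    · intro i _ hij; simp [hij]
    · intro h; exact absurd hj h
  rw [h3, smul_smul, ← mul_pow]
  have h4 : ((1 : ℝ) / 2 * 2) ^ F.card = 1 := by norm_num
  rw [h4, one_smul]
  have h5 : ∑ P : {P : Finset Ω // P ∈ F.powerset}, sgn P.1 j • bp (⟨F, P⟩ : Gen Ω) = RR F j := rfl
  rw [h5, sub_self, smul_zero]

open Classical in
/-- Restriction to a union of blocks. -/
noncomputable def chi (S : Set (Finset Ω)) : L1 (Gen Ω) →L[ℝ] L1 (Gen Ω) :=
  l1ext (fun k => if k.1 ∈ S then bp k else 0) 1 (by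
    intro k
    split_ifs
    · rw [norm_bp]
    · simp)

open Classical in
omit [OrderBot Ω] hΩ in
theorem chi_bp (S : Set (Finset Ω)) (k : Gen Ω) :
    chi S (bp k) = if k.1 ∈ S then bp k else 0 := by
  unfold chi; rw [l1ext_bp]

omit [OrderBot Ω] hΩ in
theorem norm_chi_le (S : Set (Finset Ω)) (x : L1 (Gen Ω)) : ‖chi S x‖ ≤ ‖x‖ := by
  unfold chi
  refine (l1ext_norm_le _ _ _ x).trans ?_
  rw [one_mul]

open Classical in
omit [OrderBot Ω] hΩ in
theorem chi_RR (S : Set (Finset Ω)) (F : Finset Ω) (j : Ω) :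
    chi S (RR F j) = if F ∈ S then RR F j else 0 := by
  unfold RR
  rw [map_sum]
  split_ifs with h
  · apply Finset.sum_congr rfl
    intro P _
    rw [map_smul, chi_bp, if_pos h]
  · apply Finset.sum_eq_zero
    intro P _
    rw [map_smul, chi_bp, if_neg h, smul_zero]

omit [OrderBot Ω] hΩ in
theorem TT_chi (S : Set (Finset Ω)) (x : L1 (Gen Ω)) : TT (chi S x) = chi S (TT x) := by
  have : (TT.comp (chi S)) x = ((chi S).comp TT) x := by
    apply clm_apply_eq
    intro k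
    rw [ContinuousLinearMap.comp_apply, ContinuousLinearMap.comp_apply, chi_bp]
    have h1 : TT (bp k) = tv k := by unfold TT; rw [l1ext_bp]
    rw [h1]
    unfold tv
    rw [map_smul, map_sub, map_smul, map_sum, chi_bp]
    by_cases h : k.1 ∈ S
    · rw [if_pos h, h1]
      unfold tv
      congr 4
      ext1 j
      rw [map_smul, chi_RR, if_pos h]
    · rw [if_neg h, map_zero]
      rw [Finset.sum_eq_zero, smul_zero, sub_zero, smul_zero]
      intro j _
      rw [map_smul, chi_RR, if_neg h, smul_zero]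
  exact this

/-- The projection on a block. -/
noncomputable def blk (F : Finset Ω) : L1 (Gen Ω) →L[ℝ] L1 (Gen Ω) := chi {F}

/-- Coordinate functional. -/
noncomputable def ev (k : Gen Ω) : L1 (Gen Ω) →L[ℝ] ℝ := lp.evalCLM ℝ (fun _ : Gen Ω => ℝ) 1 k

omit [LinearOrder Ω] [OrderBot Ω] hΩ in
theorem ev_apply (k : Gen Ω) (x : L1 (Gen Ω)) : ev k x = x k := rfl

omit [OrderBot Ω] hΩ in
theorem blk_eq (F : Finset Ω) (x : L1 (Gen Ω)) :
    blk F x = ∑ P : {P : Finset Ω // P ∈ F.powerset}, x ⟨F, P⟩ • bp (⟨F, P⟩ : Gen Ω) := by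
  classical
  have : blk F x = (∑ P : {P : Finset Ω // P ∈ F.powerset},
      (ev (⟨F, P⟩ : Gen Ω)).smulRight (bp (⟨F, P⟩ : Gen Ω))) x := by
    apply clm_apply_eq
    rintro ⟨G, Q⟩
    unfold blk
    rw [chi_bp, sum_apply]
    by_cases h : G = F
    · subst h
      rw [if_pos (Set.mem_singleton _), Finset.sum_eq_single Q]
      · rw [ContinuousLinearMap.smulRight_apply, ev_apply, bp_apply, if_pos rfl, one_smul]
      · intro P _ hPQ
        rw [ContinuousLinearMap.smulRight_apply, ev_apply, bp_apply, if_neg, zero_smul]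
        intro heq
        apply hPQ
        simpa using heq
      · intro h; exact absurd (Finset.mem_univ _) h
    · rw [if_neg (by simpa using h), Finset.sum_eq_zero]
      intro P _
      rw [ContinuousLinearMap.smulRight_apply, ev_apply, bp_apply, if_neg, zero_smul]
      intro heq
      apply h
      have := congrArg Sigma.fst heq
      exact this.symm
  rw [this, sum_apply]
  rfl

omit [OrderBot Ω] hΩ in
theorem hasSum_blk (x : L1 (Gen Ω)) : HasSum (fun F => blk F x) x := by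
  have h1 := (hasSum_bp x).sigma (fun F => hasSum_fintype
    (fun P : {P : Finset Ω // P ∈ F.powerset} => x ⟨F, P⟩ • bp (⟨F, P⟩ : Gen Ω)))
  convert h1 using 2 with F
  exact blk_eq F x

end Pool.Agent.Lib.MP_7cf0e7_an
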