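import Mathlib

/-!
# The space `ℓ¹(ι)` as the free Banach space on `ι`

`bp i` are the unit vectors, `l1ext v C hv` is the continuous linear map sending `bp i` to `v i`.
-/

set_option autoImplicit false

namespace Pool.Agent.Lib.MP_7cf0e7_an

open scoped ENNReal

/-- The real space `ℓ¹(ι)`. -/
abbrev L1 (ι : Type) : Type := lp (fun _ : ι => ℝ) 1

section

variable {ι : Type} {E : Type*} [NormedAddCommGroup E] [NormedSpace ℝ E] [CompleteSpace E]

theorem L1.summable_abs (x : L1 ι) : Summable fun i => |x i| := by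
  have := (lp.memℓp x).summable (by norm_num)
  simpa using this

theorem L1.summable (x : L1 ι) : Summable fun i => x i := (L1.summable_abs x).of_abs

theorem L1.norm_eq (x : L1 ι) : ‖x‖ = ∑' i, |x i| := by
  rw [lp.norm_eq_tsum_rpow (by norm_num)]
  simp

theorem L1.summable_smul (v : ι → E) (C : ℝ) (hv : ∀ i, ‖v i‖ ≤ C) (x : L1 ι) :
    Summable fun i => x i • v i := by
  apply Summable.of_norm_bounded (g := fun i => |x i| * C) ((L1.summable_abs x).mul_right C)
  intro i
  rw [norm_smul, Real.norm_eq_abs]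
  exact mul_le_mul_of_nonneg_left (hv i) (abs_nonneg _)

/-- The continuous linear map `ℓ¹(ι) → E` with `bp i ↦ v i`. -/
noncomputable def l1ext (v : ι → E) (C : ℝ) (hv : ∀ i, ‖v i‖ ≤ C) : L1 ι →L[ℝ] E :=
  LinearMap.mkContinuous
    { toFun := fun x => ∑' i, x i • v i
      map_add' := by
        intro x y
        rw [← (L1.summable_smul v C hv x).tsum_add (L1.summable_smul v C hv y)]
        congr 1
        ext i
        rw [lp.coeFn_add, Pi.add_apply, add_smul]
      map_smul' := by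
        intro c x
        rw [RingHom.id_apply, ← (L1.summable_smul v C hv x).tsum_const_smul]
        congr 1
        ext i
        rw [lp.coeFn_smul, Pi.smul_apply, smul_assoc] } C (by
      intro x
      simp only [LinearMap.coe_mk, AddHom.coe_mk]
      have h1 : Summable fun i => ‖x i • v i‖ := by
        apply Summable.of_nonneg_of_le (fun i => norm_nonneg _) _
          ((L1.summable_abs x).mul_right C)
        intro i
        rw [norm_smul, Real.norm_eq_abs]
        exact mul_le_mul_of_nonneg_left (hv i) (abs_nonneg _)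
      refine (norm_tsum_le_tsum_norm h1).trans ?_
      rw [L1.norm_eq, mul_comm, ← tsum_mul_right]
      apply h1.tsum_le_tsum _ ((L1.summable_abs x).mul_right C)
      intro i
      rw [norm_smul, Real.norm_eq_abs]
      exact mul_le_mul_of_nonneg_left (hv i) (abs_nonneg _))

theorem l1ext_apply (v : ι → E) (C : ℝ) (hv : ∀ i, ‖v i‖ ≤ C) (x : L1 ι) :
    l1ext v C hv x = ∑' i, x i • v i := rfl

theorem l1ext_norm_le (v : ι → E) (C : ℝ) (hv : ∀ i, ‖v i‖ ≤ C) (x : L1 ι) :
    ‖l1ext v C hv x‖ ≤ C * ‖x‖ := by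
  rw [l1ext_apply]
  have h1 : Summable fun i => ‖x i • v i‖ := by
    apply Summable.of_nonneg_of_le (fun i => norm_nonneg _) _
      ((L1.summable_abs x).mul_right C)
    intro i
    rw [norm_smul, Real.norm_eq_abs]
    exact mul_le_mul_of_nonneg_left (hv i) (abs_nonneg _)
  refine (norm_tsum_le_tsum_norm h1).trans ?_
  rw [L1.norm_eq, mul_comm, ← tsum_mul_right]
  apply h1.tsum_le_tsum _ ((L1.summable_abs x).mul_right C)
  intro i
  rw [norm_smul, Real.norm_eq_abs]
  exact mul_le_mul_of_nonneg_left (hv i) (abs_nonneg _)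

end

section

variable {ι : Type} [DecidableEq ι]

/-- The unit vectors of `ℓ¹(ι)`. -/
noncomputable def bp (i : ι) : L1 ι := lp.single 1 i (1 : ℝ)

theorem bp_apply (i j : ι) : bp i j = if j = i then 1 else 0 := by
  unfold bp
  rw [lp.single_apply, Pi.single_apply]

theorem norm_bp (i : ι) : ‖bp i‖ = 1 := by
  unfold bp
  rw [lp.norm_single (by norm_num)]
  simp

theorem hasSum_bp (x : L1 ι) : HasSum (fun i => x i • bp i) x := by
  have := lp.hasSum_single (p := 1) (by norm_num) x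
  convert this using 2 with i
  unfold bp
  rw [← lp.single_smul]
  simp

variable {E : Type*} [NormedAddCommGroup E] [NormedSpace ℝ E]

theorem clm_ext {f g : L1 ι →L[ℝ] E} (h : ∀ i, f (bp i) = g (bp i)) : f = g := by
  ext x
  have hf := (hasSum_bp x).mapL f
  have hg := (hasSum_bp x).mapL g
  have : (fun i => f (x i • bp i)) = fun i => g (x i • bp i) := by
    ext i
    rw [map_smul, map_smul, h]
  rw [this] at hf
  exact hf.unique hg

theorem clm_apply_eq {f g : L1 ι →L[ℝ] E} (h : ∀ i, f (bp i) = g (bp i)) (x : L1 ι) :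
    f x = g x := by rw [clm_ext h]

variable [CompleteSpace E]

@[simp] theorem l1ext_bp (v : ι → E) (C : ℝ) (hv : ∀ i, ‖v i‖ ≤ C) (i : ι) :
    l1ext v C hv (bp i) = v i := by
  rw [l1ext_apply, tsum_eq_single i]
  · rw [bp_apply]; simp
  · intro j hj
    rw [bp_apply, if_neg hj, zero_smul]

/-- The bilinear form on `ℓ¹(ι)` with matrix `a`. -/
noncomputable def l1form (a : ι → ι → ℝ) (C : ℝ) (ha : ∀ i j, |a i j| ≤ C) :
    L1 ι →L[ℝ] L1 ι →L[ℝ] ℝ :=
  l1ext (fun i => l1ext (fun j => a i j) C (fun j => ha i j)) (max C 0) (by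
    intro i
    apply ContinuousLinearMap.opNorm_le_bound _ (le_max_right _ _)
    intro x
    refine (l1ext_norm_le _ _ _ x).trans ?_
    exact mul_le_mul_of_nonneg_right (le_max_left _ _) (norm_nonneg _))

@[simp] theorem l1form_bp (a : ι → ι → ℝ) (C : ℝ) (ha : ∀ i j, |a i j| ≤ C) (i j : ι) :
    l1form a C ha (bp i) (bp j) = a i j := by
  unfold l1form
  rw [l1ext_bp, l1ext_bp]

theorem l1form_norm_le (a : ι → ι → ℝ) (C : ℝ) (hC : 0 ≤ C) (ha : ∀ i j, |a i j| ≤ C)
    (x y : L1 ι) : |l1form a C ha x y| ≤ C * ‖x‖ * ‖y‖ := by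
  have h1 : ‖l1form a C ha x‖ ≤ (max C 0) * ‖x‖ := l1ext_norm_le _ _ _ x
  rw [max_eq_left hC] at h1
  calc |l1form a C ha x y| = ‖l1form a C ha x y‖ := (Real.norm_eq_abs _).symm
    _ ≤ ‖l1form a C ha x‖ * ‖y‖ := (l1form a C ha x).le_opNorm y
    _ ≤ _ := mul_le_mul_of_nonneg_right h1 (norm_nonneg _)

/-- Two continuous bilinear forms on `ℓ¹(ι)` agreeing on unit vectors are equal. -/
theorem form_ext {f g : L1 ι →L[ℝ] L1 ι →L[ℝ] ℝ} (h : ∀ i j, f (bp i) (bp j) = g (bp i) (bp j))
    (x y : L1 ι) : f x y = g x y := by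
  have : f = g := clm_ext fun i => clm_ext fun j => h i j
  rw [this]

theorem form_symm {f : L1 ι →L[ℝ] L1 ι →L[ℝ] ℝ} (h : ∀ i j, f (bp i) (bp j) = f (bp j) (bp i))
    (x y : L1 ι) : f x y = f y x := by
  have := form_ext (f := f) (g := f.flip) (fun i j => by
    rw [ContinuousLinearMap.flip_apply, h]) x y
  rw [this, ContinuousLinearMap.flip_apply]

/-- Finitely supported rational vectors are dense in `ℓ¹(ι)`. -/
theorem exists_rat_approx (x : L1 ι) {ε : ℝ} (hε : 0 < ε) :
    ∃ (s : Finset ι) (c : ι → ℚ), ‖x - ∑ i ∈ s, (c i : ℝ) • bp i‖ ≤ ε := by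
  have h := hasSum_bp x
  rw [HasSum, Metric.tendsto_nhds] at h
  obtain ⟨s, hs⟩ := (h (ε / 2) (half_pos hε)).exists
  have hex : ∀ i : ι, ∃ q : ℚ, |x i - q| ≤ ε / (2 * (s.card + 1)) := by
    intro i
    have hpos : 0 < ε / (2 * ((s.card : ℝ) + 1)) := by positivity
    obtain ⟨q, hq1, hq2⟩ := exists_rat_btwn (show x i - ε / (2 * ((s.card : ℝ) + 1)) < x i by linarith)
    refine ⟨q, ?_⟩
    rw [abs_le]
    constructor <;> linarith
  choose c hc using hex
  refine ⟨s, c, ?_⟩
  have h1 : ‖x - ∑ i ∈ s, x i • bp i‖ ≤ ε / 2 := by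
    rw [dist_eq_norm, norm_sub_rev] at hs
    exact hs.le
  have h2 : ‖∑ i ∈ s, x i • bp i - ∑ i ∈ s, (c i : ℝ) • bp i‖ ≤ ε / 2 := by
    rw [← Finset.sum_sub_distrib]
    refine (norm_sum_le _ _).trans ?_
    have : ∀ i ∈ s, ‖x i • bp i - (c i : ℝ) • bp i‖ ≤ ε / (2 * (s.card + 1)) := by
      intro i _
      rw [← sub_smul, norm_smul, norm_bp, mul_one, Real.norm_eq_abs]
      exact hc i
    refine (Finset.sum_le_sum this).trans ?_
    rw [Finset.sum_const, nsmul_eq_mul]
    have hp : (0:ℝ) < s.card + 1 := by positivity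
    rw [mul_div_assoc', div_le_div_iff₀ (by positivity) (by norm_num)]
    nlinarith [hp, hε]
  calc ‖x - ∑ i ∈ s, (c i : ℝ) • bp i‖
      = ‖(x - ∑ i ∈ s, x i • bp i) + (∑ i ∈ s, x i • bp i - ∑ i ∈ s, (c i : ℝ) • bp i)‖ := by
        congr 1; abel
    _ ≤ _ := norm_add_le _ _
    _ ≤ ε / 2 + ε / 2 := add_le_add h1 h2
    _ = ε := by ring

end

end Pool.Agent.Lib.MP_7cf0e7_an
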