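import Pool.Agent.Lib.MP_7cf0e7_an.Bilin

/-!
# No continuous quadratic form is positive
-/

set_option autoImplicit false

namespace Pool.Agent.Lib.MP_7cf0e7_an

variable {Ω : Type} [LinearOrder Ω] [OrderBot Ω] [hΩ : IsOm Ω]
variable {X : Type} [NormedAddCommGroup X] [NormedSpace ℝ X]

theorem sum_e_le (π : L1 (Gen Ω) →L[ℝ] X) (hπn : ∀ x, ‖π x‖ ≤ ‖x‖)
    (hRR : ∀ (F : Finset Ω) (j : Ω), j ∈ F → π (RR F j) = (2 ^ F.card * lam F.card) • π (eV j))
    (B : X →L[ℝ] X →L[ℝ] ℝ) (hB : ∀ x, 0 ≤ B x x) (F : Finset Ω) :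
    lam F.card ^ 2 * ∑ i ∈ F, B (π (eV i)) (π (eV i)) ≤ ‖B‖ := by
  classical
  set l := lam F.card with hl
  set e : Ω → X := fun j => π (eV j) with he
  let x : {P : Finset Ω // P ∈ F.powerset} → X := fun P => π (bp (⟨F, P⟩ : Gen Ω))
  let r : {P : Finset Ω // P ∈ F.powerset} → X := fun P => ∑ i ∈ F, sgn P.1 i • e i
  have hxsum : ∀ i ∈ F, ∑ P, sgn P.1 i • x P = (2 ^ F.card * l) • e i := by
    intro i hi
    rw [he, hl]
    simp only
    rw [← hRR F i hi]
    unfold RR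
    rw [map_sum]
    apply Finset.sum_congr rfl
    intro P _
    rw [map_smul]
  have h0 : 0 ≤ ∑ P, B (x P - l • r P) (x P - l • r P) := Finset.sum_nonneg fun P _ => hB _
  have h1 : ∀ P, B (x P - l • r P) (x P - l • r P) =
      B (x P) (x P) - l * B (x P) (r P) - l * B (r P) (x P) + l ^ 2 * B (r P) (r P) := by
    intro P
    simp only [map_sub, map_smul, sub_apply, smul_apply, smul_eq_mul]
    ring
  have h2 : ∑ P, B (x P) (r P) = 2 ^ F.card * l * ∑ i ∈ F, B (e i) (e i) := by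
    have : ∀ P, B (x P) (r P) = ∑ i ∈ F, B (sgn P.1 i • x P) (e i) := by
      intro P
      simp only [r]
      rw [map_sum]
      apply Finset.sum_congr rfl
      intro i _
      rw [map_smul, map_smul, smul_apply]
    simp_rw [this]
    rw [Finset.sum_comm, Finset.mul_sum]
    apply Finset.sum_congr rfl
    intro i hi
    rw [← sum_apply, ← map_sum, hxsum i hi, map_smul, smul_apply, smul_eq_mul]
  have h3 : ∑ P, B (r P) (x P) = 2 ^ F.card * l * ∑ i ∈ F, B (e i) (e i) := by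
    have : ∀ P, B (r P) (x P) = ∑ i ∈ F, B (e i) (sgn P.1 i • x P) := by
      intro P
      simp only [r]
      rw [map_sum, sum_apply]
      apply Finset.sum_congr rfl
      intro i _
      rw [map_smul, map_smul, smul_apply]
    simp_rw [this]
    rw [Finset.sum_comm, Finset.mul_sum]
    apply Finset.sum_congr rfl
    intro i hi
    rw [← map_sum, hxsum i hi, map_smul, smul_eq_mul]
  have h4 : ∑ P, B (r P) (r P) = 2 ^ F.card * ∑ i ∈ F, B (e i) (e i) := by
    have : ∀ P, B (r P) (r P) = ∑ i ∈ F, ∑ k ∈ F, (sgn P.1 i * sgn P.1 k) * B (e i) (e k) := by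
      intro P
      simp only [r]
      rw [map_sum B, sum_apply]
      apply Finset.sum_congr rfl
      intro i _
      rw [map_sum]
      apply Finset.sum_congr rfl
      intro k _
      rw [map_smul, map_smul, smul_apply, smul_eq_mul, smul_eq_mul]
      ring
    simp_rw [this]
    rw [Finset.sum_comm, Finset.mul_sum]
    apply Finset.sum_congr rfl
    intro i hi
    rw [Finset.sum_comm]
    have h5 : ∀ k ∈ F, ∑ P : {P : Finset Ω // P ∈ F.powerset},
        (sgn P.1 i * sgn P.1 k) * B (e i) (e k) =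
        (if i = k then (2 : ℝ) ^ F.card else 0) * B (e i) (e k) := by
      intro k hk
      rw [← Finset.sum_mul, sum_gen (fun P => sgn P i * sgn P k), sum_sgn_mul hi hk]
    rw [Finset.sum_congr rfl h5, Finset.sum_eq_single i]
    · simp
    · intro k _ hk; simp [Ne.symm hk]
    · intro h; exact absurd hi h
  have h6 : ∑ P, B (x P) (x P) ≤ 2 ^ F.card * ‖B‖ := by
    have : ∀ P ∈ (Finset.univ : Finset {P : Finset Ω // P ∈ F.powerset}),
        B (x P) (x P) ≤ ‖B‖ := by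
      intro P _
      have hx : ‖x P‖ ≤ 1 := (hπn _).trans (norm_bp _).le
      calc B (x P) (x P) ≤ ‖B (x P) (x P)‖ := Real.le_norm_self _
        _ ≤ ‖B‖ * ‖x P‖ * ‖x P‖ := B.le_opNorm₂ _ _
        _ ≤ ‖B‖ * 1 * 1 := by gcongr
        _ = ‖B‖ := by ring
    refine (Finset.sum_le_sum this).trans ?_
    simp
  simp_rw [h1] at h0
  rw [Finset.sum_add_distrib, Finset.sum_sub_distrib, Finset.sum_sub_distrib, ← Finset.mul_sum,
    ← Finset.mul_sum, ← Finset.mul_sum, h2, h3, h4] at h0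
  have h7 : (0 : ℝ) < 2 ^ F.card := by positivity
  have h8 : 2 ^ F.card * (l ^ 2 * ∑ i ∈ F, B (e i) (e i)) ≤ 2 ^ F.card * ‖B‖ := by
    nlinarith [h0, h6]
  exact le_of_mul_le_mul_left h8 h7

theorem no_pos (π : L1 (Gen Ω) →L[ℝ] X) (hπn : ∀ x, ‖π x‖ ≤ ‖x‖)
    (hRR : ∀ (F : Finset Ω) (j : Ω), j ∈ F → π (RR F j) = (2 ^ F.card * lam F.card) • π (eV j))
    (hne : ∀ j, π (eV j) ≠ 0) :
    ¬ ∃ B : X →L[ℝ] X →L[ℝ] ℝ, ∀ x : X, x ≠ 0 → 0 < B x x := by
  classical
  rintro ⟨B, hB⟩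
  have hB0 : ∀ x, 0 ≤ B x x := by
    intro x
    by_cases hx : x = 0
    · rw [hx]; simp
    · exact (hB x hx).le
  have h1 : ∀ j : Ω, ∃ m : ℕ, 1 / ((m : ℝ) + 1) < B (π (eV j)) (π (eV j)) := fun j =>
    exists_nat_one_div_lt (hB _ (hne j))
  choose m hm using h1
  have hun : ¬ (Set.univ : Set Ω).Countable := by
    rw [Set.countable_univ_iff]
    exact not_countable
  obtain ⟨n, -, hn⟩ := pigeon hun m (Set.to_countable _)
  have hinf : {a ∈ Set.univ | m a = n}.Infinite := fun hfin => hn hfin.countable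
  obtain ⟨N, hN⟩ := exists_nat_gt ((((n : ℝ) + 1) * ‖B‖) ^ 2)
  have hN0 : 0 < N := by
    have : (0 : ℝ) < N := lt_of_le_of_lt (sq_nonneg _) hN
    exact_mod_cast this
  obtain ⟨F, hF, hFc⟩ := hinf.exists_subset_card_eq N
  have h2 := sum_e_le π hπn hRR B hB0 F
  rw [hFc, lam_sq] at h2
  have h3 : (N : ℝ) * (1 / ((n : ℝ) + 1)) ≤ ∑ i ∈ F, B (π (eV i)) (π (eV i)) := by
    have : ∀ i ∈ F, 1 / ((n : ℝ) + 1) ≤ B (π (eV i)) (π (eV i)) := by
      intro i hi
      have h4 := (hF hi).2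
      have h5 := hm i
      rw [h4] at h5
      exact h5.le
    have h6 := Finset.sum_le_sum this
    rw [Finset.sum_const, hFc, nsmul_eq_mul] at h6
    exact h6
  have hs : (0 : ℝ) < √N := Real.sqrt_pos.2 (by exact_mod_cast hN0)
  have hss : √(N : ℝ) * √N = N := Real.mul_self_sqrt (Nat.cast_nonneg N)
  have hn1 : (0 : ℝ) < (n : ℝ) + 1 := by positivity
  have h4 : √(N : ℝ) ≤ (n + 1) * ‖B‖ := by
    have h5 : (√(N : ℝ))⁻¹ * ((N : ℝ) * (1 / ((n : ℝ) + 1))) ≤ ‖B‖ :=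
      (mul_le_mul_of_nonneg_left h3 (by positivity)).trans h2
    have h6 : (√(N : ℝ))⁻¹ * ((N : ℝ) * (1 / ((n : ℝ) + 1))) = √N / (n + 1) := by
      have h7 : (N : ℝ) * (1 / ((n : ℝ) + 1)) = √N * (√N / (n + 1)) := by
        rw [← mul_div_assoc, ← mul_div_assoc, hss, mul_one]
      rw [h7, inv_mul_cancel_left₀ hs.ne']
    rw [h6, div_le_iff₀ hn1] at h5
    linarith
  have h5 : (N : ℝ) ≤ ((n + 1) * ‖B‖) ^ 2 := by
    rw [← hss, ← sq]
    exact pow_le_pow_left₀ hs.le h4 2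
  linarith

end Pool.Agent.Lib.MP_7cf0e7_an
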