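import Pool.Agent.Lib.MP_7cf0e7_an.Bilin

/-!
# The Banach space: the quotient of `ℓ¹` by the radical of the form
-/

set_option autoImplicit false

namespace Pool.Agent.Lib.MP_7cf0e7_an

variable (Ω : Type) [LinearOrder Ω] [OrderBot Ω] [hΩ : IsOm Ω]

/-- The radical of the form. -/
noncomputable def MM : Submodule ℝ (L1 (Gen Ω)) := (AA (Ω := Ω)).ker

instance isClosed_MM : IsClosed (MM Ω : Set (L1 (Gen Ω))) :=
  ContinuousLinearMap.isClosed_ker (AA (Ω := Ω))

/-- The Banach space. -/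
abbrev XX : Type := L1 (Gen Ω) ⧸ MM Ω

/-- The quotient map. -/
noncomputable def qm : L1 (Gen Ω) →L[ℝ] XX Ω := (MM Ω).mkQL

variable {Ω}

theorem qm_surj : Function.Surjective (qm Ω) := Submodule.mkQ_surjective _

theorem norm_qm_le (x : L1 (Gen Ω)) : ‖qm Ω x‖ ≤ ‖x‖ := Submodule.Quotient.norm_mk_le (MM Ω) x

theorem mem_MM {x : L1 (Gen Ω)} : x ∈ MM Ω ↔ ∀ y, AA x y = 0 := by
  constructor
  · intro h y
    have h1 : AA x = 0 := h
    rw [h1]; simp
  · intro h
    have : AA x = 0 := by ext y; exact h y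
    exact this

theorem qm_eq_zero {x : L1 (Gen Ω)} (h : ∀ y, AA x y = 0) : qm Ω x = 0 :=
  (Submodule.Quotient.mk_eq_zero _).2 (mem_MM.2 h)

/-- One-sided lift. -/
noncomputable def fx (x : L1 (Gen Ω)) : XX Ω →L[ℝ] ℝ :=
  (MM Ω).liftQL (AA x) (by
    intro m hm
    have : AA x m = 0 := by rw [AA_symm]; exact mem_MM.1 hm x
    exact this)

theorem fx_qm (x y : L1 (Gen Ω)) : fx x (qm Ω y) = AA x y := rfl

theorem norm_fx_le (x : L1 (Gen Ω)) : ‖fx x‖ ≤ ‖AA x‖ := by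
  apply ContinuousLinearMap.opNorm_le_bound _ (norm_nonneg _)
  intro y
  apply le_of_forall_pos_le_add
  intro ε hε
  obtain ⟨m, rfl, hm⟩ := Submodule.Quotient.norm_mk_lt y
    (show (0 : ℝ) < ε / (‖AA x‖ + 1) by positivity)
  have h1 : fx x (Submodule.Quotient.mk m) = AA x m := rfl
  rw [h1]
  have h2 : ‖AA x m‖ ≤ ‖AA x‖ * ‖m‖ := (AA x).le_opNorm m
  have h3 : ‖AA x‖ * ‖m‖ ≤ ‖AA x‖ * (‖(Submodule.Quotient.mk m : XX Ω)‖ + ε / (‖AA x‖ + 1)) :=
    mul_le_mul_of_nonneg_left hm.le (norm_nonneg _)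
  have h4 : ‖AA x‖ * (ε / (‖AA x‖ + 1)) ≤ ε := by
    rw [mul_div_assoc', div_le_iff₀ (by positivity)]
    nlinarith [norm_nonneg (AA x)]
  linarith

/-- The lift in the first variable. -/
noncomputable def FF : L1 (Gen Ω) →L[ℝ] XX Ω →L[ℝ] ℝ :=
  LinearMap.mkContinuous
    { toFun := fx
      map_add' := by
        intro x x'
        ext y
        obtain ⟨y, rfl⟩ := qm_surj y
        rw [add_apply, fx_qm, fx_qm, fx_qm, map_add, add_apply]
      map_smul' := by
        intro c x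
        ext y
        obtain ⟨y, rfl⟩ := qm_surj y
        rw [RingHom.id_apply, smul_apply, fx_qm, fx_qm, map_smul, smul_apply] } ‖AA (Ω := Ω)‖ (by
      intro x
      exact (norm_fx_le x).trans (AA.le_opNorm x))

theorem FF_qm (x y : L1 (Gen Ω)) : FF x (qm Ω y) = AA x y := rfl

/-- The form on the quotient. -/
noncomputable def AX : XX Ω →L[ℝ] XX Ω →L[ℝ] ℝ :=
  (MM Ω).liftQL FF (by
    intro m hm
    have : FF m = 0 := by
      ext y
      obtain ⟨y, rfl⟩ := qm_surj y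
      rw [FF_qm]
      simp only [zero_apply]
      exact mem_MM.1 hm y
    exact this)

theorem AX_qm (x y : L1 (Gen Ω)) : AX (qm Ω x) (qm Ω y) = AA x y := rfl

theorem qm_RR (F : Finset Ω) (j : Ω) (hj : j ∈ F) :
    qm Ω (RR F j) = (2 ^ F.card * lam F.card) • qm Ω (eV j) := by
  rw [← sub_eq_zero, ← map_smul, ← map_sub]
  apply qm_eq_zero
  intro y
  rw [map_sub, sub_apply, AA_RR hj, map_smul, smul_apply, smul_eq_mul, sub_self]

theorem qm_eV_ne (j : Ω) : qm Ω (eV j) ≠ 0 := by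
  intro h
  have h1 := AX_qm (eV j) (eV j)
  rw [h, AA_eV_eV, if_pos rfl] at h1
  simp at h1

end Pool.Agent.Lib.MP_7cf0e7_an
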