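import Pool.Agent.Lib.MP_7cf0e7_an.CaseA
import Pool.Agent.Lib.MP_7cf0e7_an.CaseB
import Pool.Agent.Lib.MP_7cf0e7_an.NoPos
import Pool.Agent.Lib.MP_7cf0e7_an.Space

/-!
# A Banach space for which both alternatives fail
-/

set_option autoImplicit false

namespace Pool.Agent.Lib.MP_7cf0e7_an

section

variable {Ω : Type} [LinearOrder Ω] [OrderBot Ω] [hΩ : IsOm Ω]

/-- Every subspace isotropic for `AX` is separable. -/
theorem isotropic_separable (V : Submodule ℝ (XX Ω)) (hV : ∀ v ∈ V, AX v v = 0) :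
    TopologicalSpace.IsSeparable (V : Set (XX Ω)) := by
  have hsymm : ∀ x y : XX Ω, AX x y = AX y x := A_symm (qm Ω) AX AX_qm qm_surj
  have hpol : ∀ x ∈ V, ∀ y ∈ V, AX x y = 0 := by
    intro x hx y hy
    have h1 := hV _ (V.add_mem hx hy)
    rw [map_add AX, add_apply, map_add, map_add, hV x hx, hV y hy, hsymm y x] at h1
    linarith
  by_cases hB : ∃ d0 : Ω, ∀ x, qm Ω x ∈ V → ∀ F : Finset Ω, d0 ≤ mx F → TT (blk F x) = 0
  · obtain ⟨d0, hd0⟩ := hB
    exact caseB (qm Ω) AX AX_qm qm_surj (fun x h => qm_eq_zero h) qm_RR V hV d0 hd0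
  · exfalso
    push Not at hB
    refine caseA (V.comap (qm Ω).toLinearMap) ?_ ?_
    · intro x hx y hy
      rw [← AX_qm]
      exact hpol _ hx _ hy
    · intro d0
      obtain ⟨x, hx, F, hF, hT⟩ := hB d0
      exact ⟨x, hx, F, hF, hT⟩

end

theorem main : ∃ (X : Type) (_ : NormedAddCommGroup X) (_ : NormedSpace ℝ X) (_ : CompleteSpace X),
    (¬ ∃ B : X →L[ℝ] X →L[ℝ] ℝ, ∀ x : X, x ≠ 0 → 0 < B x x) ∧
    ∃ A : X →L[ℝ] X →L[ℝ] ℝ, ∀ V : Submodule ℝ X, (∀ v ∈ V, A v v = 0) →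
      TopologicalSpace.IsSeparable (V : Set X) := by
  obtain ⟨Ω, _, _, _⟩ := exists_om
  refine ⟨XX Ω, inferInstance, inferInstance, inferInstance, ?_, AX, ?_⟩
  · exact no_pos (qm Ω) norm_qm_le qm_RR qm_eV_ne
  · exact fun V hV => isotropic_separable V hV

end Pool.Agent.Lib.MP_7cf0e7_an
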