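import Mathlib

/-!
# A concrete copy of the first uncountable ordinal in `Type`
-/

set_option autoImplicit false

namespace Pool.Agent.Lib.MP_7cf0e7_an

/-- `Ω` is a well-order which is uncountable, with countable proper initial segments and of
cardinality at most the continuum. -/
class IsOm (Ω : Type) [LinearOrder Ω] [OrderBot Ω] : Prop where
  wf : WellFoundedLT Ω
  unc : Uncountable Ω
  iio : ∀ a : Ω, (Set.Iio a).Countable
  card : Cardinal.mk Ω ≤ Cardinal.continuum

theorem exists_om : ∃ (Ω : Type) (_ : LinearOrder Ω) (_ : OrderBot Ω), IsOm Ω := by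
  classical
  let c : Cardinal.{0} := Cardinal.aleph 1
  have hmk : Cardinal.mk c.ord.ToType = c := Cardinal.mk_ord_toType c
  have hunc : Uncountable c.ord.ToType := by
    rw [← Cardinal.aleph0_lt_mk_iff, hmk]
    exact Cardinal.aleph0_lt_aleph_one
  have hne : Nonempty c.ord.ToType := inferInstance
  let _ : OrderBot c.ord.ToType := WellFoundedLT.toOrderBot _
  refine ⟨c.ord.ToType, inferInstance, inferInstance, ⟨inferInstance, hunc, ?_, ?_⟩⟩
  · intro a
    have h := Cardinal.mk_Iio_lt a (by rw [hmk]; simp)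
    rw [hmk] at h
    exact (Cardinal.countable_iff_lt_aleph_one _).2 h
  · rw [hmk]
    exact Cardinal.aleph_one_le_continuum

variable {Ω : Type} [LinearOrder Ω] [OrderBot Ω] [hΩ : IsOm Ω]

instance : WellFoundedLT Ω := hΩ.wf
instance : Uncountable Ω := hΩ.unc

theorem countable_Iic (a : Ω) : (Set.Iic a).Countable := by
  have : Set.Iic a = insert a (Set.Iio a) := by
    ext x; simp [le_iff_eq_or_lt]
  rw [this]
  exact (hΩ.iio a).insert a

/-- A countable subset of `Ω` is strictly bounded. -/
theorem exists_bound {s : Set Ω} (hs : s.Countable) : ∃ b : Ω, ∀ a ∈ s, a < b := by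
  by_contra hcon
  push Not at hcon
  have : (Set.univ : Set Ω) ⊆ ⋃ a ∈ s, Set.Iic a := by
    intro b _
    obtain ⟨a, ha, hab⟩ := hcon b
    simp only [Set.mem_iUnion]
    exact ⟨a, ha, hab⟩
  have h2 : (Set.univ : Set Ω).Countable :=
    (hs.biUnion (fun a _ => countable_Iic a)).mono this
  exact not_countable (α := Ω) (Set.countable_univ_iff.1 h2)

theorem exists_gt' (a : Ω) : ∃ b : Ω, a < b := by
  obtain ⟨b, hb⟩ := exists_bound (Set.countable_singleton a)
  exact ⟨b, hb a rfl⟩

/-- An uncountable subset of `Ω` is unbounded. -/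
theorem exists_mem_gt {s : Set Ω} (hs : ¬ s.Countable) (a : Ω) : ∃ b ∈ s, a < b := by
  by_contra hcon
  push Not at hcon
  exact hs ((countable_Iic a).mono hcon)

/-- The part of an uncountable set above a point is uncountable. -/
theorem unc_ge {s : Set Ω} (hs : ¬ s.Countable) (a : Ω) : ¬ {b ∈ s | a ≤ b}.Countable := by
  intro h
  apply hs
  apply (h.union (hΩ.iio a)).mono
  intro x hx
  by_cases h' : a ≤ x
  · exact Or.inl ⟨hx, h'⟩
  · exact Or.inr (not_le.1 h')

/-- Pigeonhole: an uncountable set with a countable-valued colouring has an uncountable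
monochromatic piece. -/
theorem pigeon {α β : Type*} {s : Set α} (hs : ¬ s.Countable) (f : α → β)
    (hf : (f '' s).Countable) : ∃ b ∈ f '' s, ¬ {a ∈ s | f a = b}.Countable := by
  by_contra hcon
  push Not at hcon
  apply hs
  apply (hf.biUnion hcon).mono
  intro a ha
  simp only [Set.mem_iUnion]
  exact ⟨f a, Set.mem_image_of_mem f ha, ha, rfl⟩

/-- Iterated pigeonhole. -/
theorem multi_pigeon {α β : Type*} {s : Set α} (hs : ¬ s.Countable) (n : ℕ) (f : ℕ → α → β)
    (hf : ∀ i < n, (f i '' s).Countable) :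
    ∃ t ⊆ s, ¬ t.Countable ∧ ∀ i < n, ∀ a ∈ t, ∀ b ∈ t, f i a = f i b := by
  induction n with
  | zero => exact ⟨s, subset_rfl, hs, by simp⟩
  | succ n ih =>
    obtain ⟨t, hts, ht, htf⟩ := ih (fun i hi => hf i (by omega))
    obtain ⟨b, hb, hu⟩ := pigeon ht (f n) ((hf n (by omega)).mono (Set.image_mono hts))
    refine ⟨{a ∈ t | f n a = b}, fun a ha => hts ha.1, hu, ?_⟩
    intro i hi a ha a' ha'
    rcases Nat.lt_succ_iff_lt_or_eq.1 hi with h | h
    · exact htf i h a ha.1 a' ha'.1
    · subst h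
      rw [ha.2, ha'.2]

/-- Weak pressing-down lemma. -/
theorem fodor (r : Ω → Ω) (hr : ∀ d, ⊥ < d → r d < d) :
    ∃ x : Ω, ¬ {d | ⊥ < d ∧ r d = x}.Countable := by
  by_contra hcon
  push Not at hcon
  -- `g a` bounds everything mapped below `a`
  have hg : ∀ a : Ω, ∃ b : Ω, a < b ∧ ∀ d, ⊥ < d → r d < a → d < b := by
    intro a
    have hc : ((⋃ x ∈ Set.Iio a, {d | ⊥ < d ∧ r d = x}) ∪ {a}).Countable :=
      ((hΩ.iio a).biUnion fun x _ => hcon x).union (Set.countable_singleton a)
    obtain ⟨b, hb⟩ := exists_bound hc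
    refine ⟨b, hb a (Or.inr rfl), fun d hd hda => hb d (Or.inl ?_)⟩
    simp only [Set.mem_iUnion]
    exact ⟨r d, hda, hd, rfl⟩
  choose g hg1 hg2 using hg
  let a : ℕ → Ω := fun n => g^[n] (g ⊥)
  have ha : ∀ n, a n < a (n + 1) := by
    intro n
    simp only [a, Function.iterate_succ_apply']
    exact hg1 _
  obtain ⟨b, hb⟩ := exists_bound (Set.countable_range a)
  -- least upper bound
  have hne : {b : Ω | ∀ n, a n < b}.Nonempty := ⟨b, fun n => hb _ ⟨n, rfl⟩⟩
  let δ := WellFounded.min (wellFounded_lt (α := Ω)) _ hne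
  have hδ : ∀ n, a n < δ := WellFounded.min_mem (wellFounded_lt (α := Ω)) _ hne
  have hδ' : ∀ x < δ, ∃ n, x ≤ a n := by
    intro x hx
    by_contra hcon
    push Not at hcon
    exact WellFounded.not_lt_min (wellFounded_lt (α := Ω)) {b : Ω | ∀ n, a n < b} hcon hx
  have hbot : ⊥ < δ := lt_of_le_of_lt bot_le (hδ 0)
  obtain ⟨n, hn⟩ := hδ' (r δ) (hr δ hbot)
  have h1 : r δ < a (n + 1) := lt_of_le_of_lt hn (ha n)
  have h2 : δ < a (n + 2) := by
    have := hg2 (a (n + 1)) δ hbot h1
    simp only [a, Function.iterate_succ_apply'] at this ⊢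
    exact this
  exact absurd (hδ (n + 2)) (not_lt.2 h2.le)

/-- Finite subsets with elements in a countable set form a countable family. -/
theorem countable_finset_subset {α : Type*} {s : Set α} (hs : s.Countable) :
    {F : Finset α | (F : Set α) ⊆ s}.Countable := by
  have h := Set.countable_ofPred_finite_subset hs
  refine Set.Countable.mono ?_ (h.preimage_of_injOn (f := fun F : Finset α => (F : Set α))
    (Finset.coe_injective.injOn))
  intro F hF
  exact ⟨F.finite_toSet, hF⟩

end Pool.Agent.Lib.MP_7cf0e7_an
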