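import Pool.Agent.Lib.MP_7cf0e7_an.Data

/-!
# Thinning out the data
-/

set_option autoImplicit false

namespace Pool.Agent.Lib.MP_7cf0e7_an

open scoped InnerProductSpace

variable {Ω : Type} [LinearOrder Ω] [OrderBot Ω] [hΩ : IsOm Ω]

open Classical in
theorem exists_thin (U : Submodule ℝ (L1 (Gen Ω)))
    (hA : ∀ d0 : Ω, ∃ x ∈ U, ∃ F : Finset Ω, d0 ≤ mx F ∧ TT (blk F x) ≠ 0) :
    ∃ (x : Ω → L1 (Gen Ω)) (κ : Ω → ℕ → Gen Ω) (c : ℕ → ℝ) (n N σ : ℕ) (ξ : Ω) (S : Set Ω)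
      (η : ℝ), ¬ S.Countable ∧ 0 < N ∧ 0 ≤ η ∧
      8 * η * (∑ s ∈ Finset.range n, |c s|) ^ 2 ≤ 1 / (N : ℝ) ^ 2 ∧ σ < n ∧
      (∀ d ∈ S, ξ < d ∧ x d ∈ U ∧ ‖x d‖ ≤ 1 ∧
        ‖x d - ∑ s ∈ Finset.range n, c s • bp (κ d s)‖ ≤ 1 / (100 * (N : ℝ) ^ 2) ∧
        d ≤ mx (κ d σ).1 ∧
        1 / (N : ℝ) ≤ ‖∑ s ∈ (Finset.range n).filter (fun s => d ≤ mx (κ d s).1 ∧
          ∀ z < d, ee (mx (κ d s).1) z = ee (mx (κ d σ).1) z), c s • Phi (bp (κ d s))‖ ∧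
        (∀ s < n, ∀ j ∈ (κ d s).1, j < d → j ≤ ξ) ∧
        (∀ s < n, ∀ t < n, d ≤ mx (κ d s).1 → d ≤ mx (κ d t).1 →
          ∀ z < d, ee (mx (κ d s).1) z ≠ ee (mx (κ d t).1) z → z ≤ ξ)) ∧
      (∀ s < n, ∀ d ∈ S, ∀ d' ∈ S,
        (κ d s).1.filter (· ≤ ξ) = (κ d' s).1.filter (· ≤ ξ) ∧
        (κ d s).2.1.filter (· ≤ ξ) = (κ d' s).2.1.filter (· ≤ ξ) ∧
        (κ d s).1.card = (κ d' s).1.card ∧
        (d ≤ mx (κ d s).1 ↔ d' ≤ mx (κ d' s).1) ∧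
        rst ξ (mx (κ d s).1) = rst ξ (mx (κ d' s).1) ∧
        ‖Phi (bp (κ d s)) - Phi (bp (κ d' s))‖ ≤ 2 * η) := by
  have hdata : ∀ d : Ω, ∃ (x : L1 (Gen Ω)) (n N : ℕ) (κ : ℕ → Gen Ω) (c : ℕ → ℚ) (s0 : ℕ) (r : Ω),
      ⊥ < d → (x ∈ U ∧ ‖x‖ ≤ 1 ∧ 0 < N ∧
      ‖x - ∑ s ∈ Finset.range n, (c s : ℝ) • bp (κ s)‖ ≤ 1 / (100 * (N : ℝ) ^ 2) ∧
      s0 < n ∧ d ≤ mx (κ s0).1 ∧
      1 / (N : ℝ) ≤ ‖∑ s ∈ (Finset.range n).filter (fun s => d ≤ mx (κ s).1 ∧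
        ∀ z < d, ee (mx (κ s).1) z = ee (mx (κ s0).1) z), (c s : ℝ) • Phi (bp (κ s))‖ ∧
      r < d ∧ (∀ s < n, ∀ j ∈ (κ s).1, j < d → j ≤ r) ∧
      (∀ s < n, ∀ t < n, d ≤ mx (κ s).1 → d ≤ mx (κ t).1 →
        ∀ z < d, ee (mx (κ s).1) z ≠ ee (mx (κ t).1) z → z ≤ r)) := by
    intro d
    by_cases hd : ⊥ < d
    · obtain ⟨x, n, N, κ, c, s0, r, h⟩ := exists_data U hA d hd
      exact ⟨x, n, N, κ, c, s0, r, fun _ => h⟩
    · exact ⟨0, 0, 0, fun _ => Classical.arbitrary _, fun _ => 0, 0, ⊥, fun h => absurd h hd⟩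
  choose x n N κ c s0 r hd using hdata
  obtain ⟨ξ, hξ⟩ := fodor r (fun d h => (hd d h).2.2.2.2.2.2.2.1)
  -- fix `n`, `N`, `s0`
  obtain ⟨⟨n1, N1, σ⟩, -, hS1⟩ := pigeon hξ (fun d => (n d, N d, s0 d)) (Set.to_countable _)
  -- fix the coefficients
  obtain ⟨S2, hS2sub, hS2, hc⟩ := multi_pigeon hS1 n1 (fun i d => c d i)
    (fun i _ => Set.to_countable _)
  have hS2ne : S2.Nonempty := by
    by_contra hcon
    rw [Set.not_nonempty_iff_eq_empty] at hcon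
    exact hS2 (hcon ▸ Set.countable_empty)
  obtain ⟨ds, hds⟩ := hS2ne
  let c1 : ℕ → ℝ := fun i => (c ds i : ℝ)
  let C : ℝ := ∑ s ∈ Finset.range n1, |c1 s|
  have hC : 0 ≤ C := Finset.sum_nonneg fun _ _ => abs_nonneg _
  have hmem : ∀ d ∈ S2, ⊥ < d ∧ r d = ξ ∧ n d = n1 ∧ N d = N1 ∧ s0 d = σ := by
    intro d h
    have h1 := hS2sub h
    obtain ⟨⟨h2, h3⟩, h4⟩ := h1
    simp only [Prod.mk.injEq] at h4
    exact ⟨h2, h3, h4.1, h4.2.1, h4.2.2⟩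
  have hN1 : 0 < N1 := by
    obtain ⟨h1, h2, h3, h4, h5⟩ := hmem ds hds
    have := (hd ds h1).2.2.1
    rwa [h4] at this
  have hN1' : (0 : ℝ) < N1 := by exact_mod_cast hN1
  let η : ℝ := 1 / (8 * (N1 : ℝ) ^ 2 * (C + 1) ^ 2)
  have hη : 0 < η := by positivity
  -- approximate the feature vectors
  obtain ⟨dq, hdq⟩ := exists_denseSeq_HH
  have hnear : ∀ h : HH, ∃ m : ℕ, ‖h - dq m‖ < η := by
    intro h
    obtain ⟨m, hm⟩ := hdq.exists_dist_lt h hη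
    exact ⟨m, by rwa [← dist_eq_norm]⟩
  choose nr hnr using hnear
  obtain ⟨S3, hS3sub, hS3, hp3⟩ := multi_pigeon hS2 n1
    (fun i d => ((κ d i).1.card, nr (Phi (bp (κ d i))), decide (d ≤ mx (κ d i).1)))
    (fun i _ => Set.to_countable _)
  -- traces
  have hcI : {F : Finset Ω | (F : Set Ω) ⊆ Set.Iic ξ}.Countable :=
    countable_finset_subset (countable_Iic ξ)
  obtain ⟨S4, hS4sub, hS4, hp4⟩ := multi_pigeon hS3 n1
    (fun i d => (κ d i).1.filter (· ≤ ξ)) (fun i _ => by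
      apply hcI.mono
      rintro _ ⟨d, _, rfl⟩
      intro j hj
      simp only [Finset.coe_filter, Set.mem_ofPred_eq] at hj
      exact hj.2)
  obtain ⟨S5, hS5sub, hS5, hp5⟩ := multi_pigeon hS4 n1
    (fun i d => (κ d i).2.1.filter (· ≤ ξ)) (fun i _ => by
      apply hcI.mono
      rintro _ ⟨d, _, rfl⟩
      intro j hj
      simp only [Finset.coe_filter, Set.mem_ofPred_eq] at hj
      exact hj.2)
  obtain ⟨S6, hS6sub, hS6, hp6⟩ := multi_pigeon hS5 n1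
    (fun i d => rst ξ (mx (κ d i).1)) (fun i _ => by
      apply (countable_rst ξ).mono
      rintro _ ⟨d, _, rfl⟩
      exact ⟨_, rfl⟩)
  have h65 := hS6sub
  have h64 := h65.trans hS5sub
  have h63 := h64.trans hS4sub
  have h62 := h63.trans hS3sub
  refine ⟨x, κ, c1, n1, N1, σ, ξ, S6, η, hS6, hN1, hη.le, ?_, ?_, ?_, ?_⟩
  · change 8 * η * C ^ 2 ≤ 1 / (N1 : ℝ) ^ 2
    have h1 : 8 * η * C ^ 2 = (C ^ 2 / (C + 1) ^ 2) * (1 / (N1 : ℝ) ^ 2) := by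
      simp only [η]
      field_simp
    rw [h1]
    have h2 : C ^ 2 / (C + 1) ^ 2 ≤ 1 := by
      rw [div_le_one (by positivity)]
      nlinarith
    calc (C ^ 2 / (C + 1) ^ 2) * (1 / (N1 : ℝ) ^ 2) ≤ 1 * (1 / (N1 : ℝ) ^ 2) :=
          mul_le_mul_of_nonneg_right h2 (by positivity)
      _ = _ := one_mul _
  · obtain ⟨h1, h2, h3, h4, h5⟩ := hmem ds hds
    have := (hd ds h1).2.2.2.2.1
    rwa [h5, h3] at this
  · intro d hdS
    obtain ⟨h1, h2, h3, h4, h5⟩ := hmem d (h62 hdS)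
    obtain ⟨e1, e2, e3, e4, e5, e6, e7, e8, e9, e10⟩ := hd d h1
    rw [h3, h4] at e4
    rw [h5] at e6
    rw [h3, h4, h5] at e7
    rw [h2] at e8
    rw [h2, h3] at e9
    rw [h2, h3] at e10
    have hcc : ∀ i ∈ Finset.range n1, (c d i : ℝ) = c1 i := by
      intro i hi
      have := hc i (Finset.mem_range.1 hi) d (h62 hdS) ds hds
      simp only [c1]
      rw [this]
    refine ⟨e8, e1, e2, ?_, e6, ?_, e9, e10⟩
    · have h6 : ∑ s ∈ Finset.range n1, c1 s • bp (κ d s) =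
          ∑ s ∈ Finset.range n1, (c d s : ℝ) • bp (κ d s) :=
        Finset.sum_congr rfl fun i hi => by rw [hcc i hi]
      rw [h6]; exact e4
    · have h6 : ∑ s ∈ (Finset.range n1).filter (fun s => d ≤ mx (κ d s).1 ∧
          ∀ z < d, ee (mx (κ d s).1) z = ee (mx (κ d σ).1) z), c1 s • Phi (bp (κ d s)) =
          ∑ s ∈ (Finset.range n1).filter (fun s => d ≤ mx (κ d s).1 ∧
          ∀ z < d, ee (mx (κ d s).1) z = ee (mx (κ d σ).1) z), (c d s : ℝ) • Phi (bp (κ d s)) :=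
        Finset.sum_congr rfl fun i hi => by rw [hcc i (Finset.mem_filter.1 hi).1]
      rw [h6]; exact e7
  · intro s hs d hdS d' hdS'
    have g3 := hp3 s hs d (h63 hdS) d' (h63 hdS')
    have g4 := hp4 s hs d (h64 hdS) d' (h64 hdS')
    have g5 := hp5 s hs d (h65 hdS) d' (h65 hdS')
    have g6 := hp6 s hs d hdS d' hdS'
    simp only [Prod.mk.injEq, decide_eq_decide] at g3
    refine ⟨g4, g5, g3.1, g3.2.2, g6, ?_⟩
    have h1 := hnr (Phi (bp (κ d s)))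
    have h2 := hnr (Phi (bp (κ d' s)))
    rw [← g3.2.1] at h2
    calc ‖Phi (bp (κ d s)) - Phi (bp (κ d' s))‖
        = ‖(Phi (bp (κ d s)) - dq (nr (Phi (bp (κ d s))))) -
            (Phi (bp (κ d' s)) - dq (nr (Phi (bp (κ d s)))))‖ := by congr 1; abel
      _ ≤ ‖Phi (bp (κ d s)) - dq (nr (Phi (bp (κ d s))))‖ +
            ‖Phi (bp (κ d' s)) - dq (nr (Phi (bp (κ d s))))‖ := norm_sub_le _ _
      _ ≤ η + η := add_le_add h1.le h2.le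
      _ = 2 * η := by ring

end Pool.Agent.Lib.MP_7cf0e7_an
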